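import Pool.Agent.Lib.MP_ff3ed7_lc.GapUpper
import Pool.Agent.Lib.MP_ff3ed7_lc.TotalUPP

/-!
# A total Boolean function in SBP and not in QMA: definitions

The input is a table (`TCell`, see `Tab.lean`) for the system `bSys n M`: its public bits are the
indicator of a set `T ⊆ Fin M`, and the system has a solution iff `|T| ≤ n` or `2 n ≤ |T|`.
-/

set_option autoImplicit false

open Finset

namespace Pool.Agent.Lib.MP_ff3ed7_lc.B

/-- Variables. -/
inductive BX (n M : ℕ) : Type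
  /-- the public bits -/
  | z (c : Fin M) : BX n M
  /-- the secret bit -/
  | b : BX n M
  /-- `z c * (1 + b)` -/
  | e (c : Fin M) : BX n M
  /-- `x c t`: `c` is mapped to `t` -/
  | x (c : Fin M) (t : Fin n) : BX n M
  /-- `y c t`: `c` is mapped to an element smaller than `t` -/
  | y (c : Fin M) (t : Fin (n + 1)) : BX n M
  /-- `u t c`: `t` is mapped to `c` -/
  | u (t : Fin (2 * n)) (c : Fin M) : BX n M
  /-- `w t c`: `t` is mapped to an element smaller than `c` -/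
  | w (t : Fin (2 * n)) (c : Fin (M + 1)) : BX n M
  deriving DecidableEq, Fintype

/-- Equations. -/
inductive BQ (n M : ℕ) : Type
  | c1 (c : Fin M) : BQ n M
  | c2 (c : Fin M) (t : Fin n) : BQ n M
  | c3 (c : Fin M) : BQ n M
  | c4 (c : Fin M) : BQ n M
  | c5 (c c' : Fin M) (t : Fin n) : BQ n M
  | d1 (t : Fin (2 * n)) : BQ n M
  | d2 (t : Fin (2 * n)) (c : Fin M) : BQ n M
  | d3 (t : Fin (2 * n)) : BQ n M
  | d4 (t : Fin (2 * n)) (c : Fin M) : BQ n M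
  | d5 (t t' : Fin (2 * n)) (c : Fin M) : BQ n M
  deriving DecidableEq, Fintype

/-- The system. -/
def bSys (n M : ℕ) : Sys (Fin M) (BX n M) (BQ n M) where
  pv p := .z p
  eqn q := match q with
    | .c1 c => ⟨⟨0, [.y c 0]⟩, ⟨1, []⟩, ⟨0, []⟩⟩
    | .c2 c t => ⟨⟨1, [.y c t.castSucc]⟩, ⟨1, [.x c t]⟩, ⟨1, [.y c t.succ]⟩⟩
    | .c3 c => ⟨⟨0, [.z c]⟩, ⟨1, [.b]⟩, ⟨0, [.e c]⟩⟩
    | .c4 c => ⟨⟨0, [.e c]⟩, ⟨1, [.y c (Fin.last n)]⟩, ⟨0, []⟩⟩
    | .c5 c c' t => ⟨⟨0, if c = c' then [] else [.x c t]⟩, ⟨0, [.x c' t]⟩, ⟨0, []⟩⟩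
    | .d1 t => ⟨⟨0, [.w t 0]⟩, ⟨1, []⟩, ⟨0, []⟩⟩
    | .d2 t c => ⟨⟨1, [.w t c.castSucc]⟩, ⟨1, [.u t c]⟩, ⟨1, [.w t c.succ]⟩⟩
    | .d3 t => ⟨⟨0, [.b]⟩, ⟨1, [.w t (Fin.last M)]⟩, ⟨0, []⟩⟩
    | .d4 t c => ⟨⟨0, [.u t c]⟩, ⟨1, [.z c]⟩, ⟨0, []⟩⟩
    | .d5 t t' c => ⟨⟨0, if t = t' then [] else [.u t c]⟩, ⟨0, [.u t' c]⟩, ⟨0, []⟩⟩

/-- The set with the indicator `z`. -/
def pat {M : ℕ} (z : Fin M → ZMod 2) : Finset (Fin M) := univ.filter fun c => z c = 1

/-- Cells of the total function. -/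
abbrev BCell (n M μ : ℕ) : Type := TCell (Fin M) (BX n M) (BQ n M) μ

noncomputable instance {n M μ : ℕ} : DecidableEq (BCell n M μ) := Classical.decEq _

open Classical in
/-- The total function: a local check fails, or the public set has more than `n` elements. -/
noncomputable def FB {n M μ : ℕ} (a : BCell n M μ → ZMod 2) : Bool :=
  decide (¬ Valid (bSys n M) a ∨ n < (pat fun c => a (.pub c)).card)

/-- The admissible sets. -/
def Adm (n : ℕ) {M : ℕ} (T : Finset (Fin M)) : Prop := T.card ≤ n ∨ 2 * n ≤ T.card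

open Classical in
/-- A solution of the system with the public set `T` (if there is one). -/
noncomputable def bsol (n : ℕ) {M : ℕ} (T : Finset (Fin M)) : BX n M → ZMod 2 :=
  if h : ∃ g : BX n M → ZMod 2, (∀ q, ((bSys n M).eqn q).Sat g) ∧ ∀ c, g (.z c) = if c ∈ T then 1 else 0
  then h.choose else fun _ => 0

/-- The hard inputs: encodings of the solution with randomness `ω`. -/
noncomputable def binp (n : ℕ) {M μ : ℕ} (T : Finset (Fin M)) (ω : Rnd (BX n M) (BQ n M) μ) :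
    BCell n M μ → ZMod 2 := tab (bSys n M) (bsol n T) ω

/-- The span of the functions of at most `D` cells. -/
def JR (ι σ : Type) (D : ℕ) : Submodule ℝ ((ι → σ) → ℝ) :=
  Submodule.span ℝ {g | ∃ S : Finset ι, S.card ≤ D ∧ ∀ x y, (∀ i ∈ S, x i = y i) → g x = g y}

/-- `f` has an SBP query protocol: `r` random bits, at most `q` adaptive queries, acceptance
probability at least `2 * 2 ^ (-s)` on the yes-inputs and at most `2 ^ (-s)` on the no-inputs. -/
def HasSBP {ι σ : Type} (f : (ι → σ) → Bool) (r s q : ℕ) : Prop :=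
  ∃ T : (Fin r → Bool) → DTree ι σ,
    (∀ ρ, (T ρ).DepthLE q) ∧
    (∀ x, f x = true → 2 * (1 / 2) ^ s ≤ prob r fun ρ => (T ρ).eval x = true) ∧
    (∀ x, f x = false → prob r (fun ρ => (T ρ).eval x = true) ≤ (1 / 2) ^ s)

/-- A signed dual object: `α` is a probability distribution on the yes-inputs, `β` is a signed
measure on the no-inputs of norm at most `22 ^ J`, and `γ` is a signed measure of norm at most
`4 * 128 ^ (-J)`; functions of at most `D` bits do not distinguish `α` from `β + γ`. -/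
def HasSDual {ι : Type} [Fintype ι] [DecidableEq ι] (f : (ι → Bool) → Bool) (J D : ℕ) : Prop :=
  ∃ α β γ : (ι → Bool) → ℝ, (∀ x, 0 ≤ α x) ∧ ∑ x, α x = 1 ∧
    (∀ x, α x ≠ 0 → f x = true) ∧ (∀ x, β x ≠ 0 → f x = false) ∧
    ∑ x, |β x| ≤ 22 ^ J ∧ ∑ x, |γ x| ≤ 4 * (1 / 128) ^ J ∧
    ∀ S : Finset ι, S.card ≤ D → ∀ g : (ι → Bool) → ℝ,
      (∀ x y, (∀ i ∈ S, x i = y i) → g x = g y) →
      ∑ x, α x * g x = ∑ x, β x * g x + ∑ x, γ x * g x

/-- The cells for the parameter `n`. -/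
abbrev BCl (n : ℕ) : Type := BCell n (512 * n ^ 3) n

/-- The total Boolean function for `n = 2 ^ ℓ`. -/
noncomputable def fB (ℓ : ℕ) (x : BCl (2 ^ ℓ) → Bool) : Bool :=
  FB (n := 2 ^ ℓ) (M := 512 * (2 ^ ℓ) ^ 3) (μ := 2 ^ ℓ) fun c => bz (x c)

end Pool.Agent.Lib.MP_ff3ed7_lc.B
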