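import Pool.Agent.Lib.MP_ff3ed7_lc.B.CCDefs

/-! `SBP` communication protocols: simulation of query protocols, and `PP` protocols. -/

set_option autoImplicit false

open Finset

namespace Pool.Agent.Lib.MP_ff3ed7_lc.B

variable {X Y : Type} {F : X → Y → Bool}

lemma HasSBPcc.comap {X' Y' : Type} {r s c : ℕ} (h : HasSBPcc F r s c) (u : X' → X) (v : Y' → Y) :
    HasSBPcc (fun x y => F (u x) (v y)) r s c := by
  obtain ⟨P, hP, hyes, hno⟩ := h
  refine ⟨fun ρ => (P ρ).comap u v, fun ρ => Prot.costLE_comap u v (hP ρ), fun x y h => ?_,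
    fun x y h => ?_⟩
  · simpa only [Prot.eval_comap] using hyes _ _ h
  · simpa only [Prot.eval_comap] using hno _ _ h

/-- Communication protocol for the evaluation of a decision tree on `sel x y`. -/
def simP {ι : Type} : DTree ι Bool → Prot (ι → Bool × Bool) (ι → Bool × Bool)
  | .leaf b => .leaf b
  | .node i next => .bob (fun y => (y i).1) fun v => .alice (fun x => if v then (x i).2 else (x i).1)
      fun a => .bob (fun y => xor a (y i).2) fun b => simP (next b)

lemma eval_simP {ι : Type} (t : DTree ι Bool) (x y : ι → Bool × Bool) :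
    (simP t).eval x y = t.eval (sel x y) := by
  induction t with
  | leaf b => rfl
  | node i next ih =>
    simp only [simP, Prot.eval, ih, DTree.eval_node]
    rfl

lemma cost_simP {ι : Type} {t : DTree ι Bool} {q : ℕ} (h : t.DepthLE q) :
    (simP t).CostLE (3 * q) := by
  induction t generalizing q with
  | leaf b => trivial
  | node i next ih =>
    obtain ⟨h0, h1⟩ := h
    refine ⟨by omega, fun v => ⟨by omega, fun a => ⟨by omega, fun b => ?_⟩⟩⟩
    have := ih b (h1 b)
    have e : 3 * q - 1 - 1 - 1 = 3 * (q - 1) := by omega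
    rw [e]
    exact this

/-- `SBP` query protocols give `SBP` communication protocols. -/
theorem HasSBP.cc {ι : Type} {f : (ι → Bool) → Bool} {r s q : ℕ} (h : HasSBP f r s q) :
    HasSBPcc (lift f) r s (3 * q) := by
  obtain ⟨T, hT, hyes, hno⟩ := h
  refine ⟨fun ρ => simP (T ρ), fun ρ => cost_simP (hT ρ), fun x y hxy => ?_, fun x y hxy => ?_⟩
  · simpa only [eval_simP] using hyes _ hxy
  · simpa only [eval_simP] using hno _ hxy

/-- The probability over a string of `1 + s + r` random bits. -/
lemma prob_mix (r s : ℕ) (e : (Fin (s + 1 + r) → Bool) ≃ Bool × (Fin s → Bool) × (Fin r → Bool))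
    (E : (Fin r → Bool) → Prop) :
    prob (s + 1 + r) (fun ρ => if (e ρ).1 then E (e ρ).2.2 else (e ρ).2.1 ≠ fun _ => true) =
      1 / 2 * prob r E + 1 / 2 * (1 - (1 / 2) ^ s) := by
  classical
  unfold prob
  have h1 : Nat.card {ρ // if (e ρ).1 then E (e ρ).2.2 else (e ρ).2.1 ≠ fun _ => true} =
      Nat.card {z : Bool × (Fin s → Bool) × (Fin r → Bool) //
        if z.1 then E z.2.2 else z.2.1 ≠ fun _ => true} :=
    Nat.card_congr (e.subtypeEquiv fun ρ => Iff.rfl)
  have h2 : Nat.card {z : Bool × (Fin s → Bool) × (Fin r → Bool) //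
      if z.1 then E z.2.2 else z.2.1 ≠ fun _ => true} =
      2 ^ s * Nat.card {ρ // E ρ} + (2 ^ s - 1) * 2 ^ r := by
    rw [Nat.card_eq_fintype_card, Fintype.card_subtype, Nat.card_eq_fintype_card,
      Fintype.card_subtype]
    have h3 : (univ.filter fun z : Bool × (Fin s → Bool) × (Fin r → Bool) =>
        if z.1 then E z.2.2 else z.2.1 ≠ fun _ => true) =
        ({true} ×ˢ (univ ×ˢ univ.filter fun ρ => E ρ)) ∪
          ({false} ×ˢ ((univ.erase fun _ => true) ×ˢ univ)) := by
      ext ⟨b, u, ρ⟩
      cases b <;> simp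
    rw [h3, card_union_of_disjoint, card_product, card_product, card_product, card_product,
      card_erase_of_mem (mem_univ _)]
    · simp
    · rw [disjoint_left]
      rintro ⟨b, u, ρ⟩ h h'
      simp only [mem_product, mem_singleton] at h h'
      rw [h.1] at h'
      exact absurd h'.1 (by simp)
  rw [h1, h2]
  have h4 : 1 ≤ 2 ^ s := Nat.one_le_two_pow
  push_cast [Nat.cast_sub h4]
  have h5 : (2 : ℝ) ^ (s + 1 + r) = 2 * 2 ^ s * 2 ^ r := by ring
  have h6 : (1 / 2 : ℝ) ^ s = 1 / 2 ^ s := by rw [div_pow, one_pow]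
  rw [h5, h6]
  field_simp

/-- `SBP` protocols give `PP` protocols. -/
theorem HasSBPcc.pp {r s c : ℕ} (h : HasSBPcc F r s c) : HasPPcc F (s + 1) c := by
  classical
  obtain ⟨P, hP, hyes, hno⟩ := h
  have hcard : Fintype.card (Fin (s + 1 + r) → Bool) =
      Fintype.card (Bool × (Fin s → Bool) × (Fin r → Bool)) := by
    simp only [Fintype.card_fun, Fintype.card_bool, Fintype.card_fin, Fintype.card_prod]
    ring
  let e := Fintype.equivOfCardEq hcard
  let Q : (Fin (s + 1 + r) → Bool) → Prot X Y := fun ρ =>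
    if (e ρ).1 then P (e ρ).2.2 else .leaf (decide ((e ρ).2.1 ≠ fun _ => true))
  have key : ∀ x y, prob (s + 1 + r) (fun ρ => (Q ρ).eval x y = true) =
      1 / 2 * prob r (fun ρ => (P ρ).eval x y = true) + 1 / 2 * (1 - (1 / 2) ^ s) := by
    intro x y
    rw [← prob_mix r s e]
    congr 1
    funext ρ
    simp only [Q]
    split_ifs with h
    · rfl
    · simp [Prot.eval]
  refine ⟨s + 1 + r, Q, fun ρ => ?_, fun x y hxy => ?_, fun x y hxy => ?_⟩
  · simp only [Q]
    split_ifs
    · exact hP _
    · trivial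
  · rw [key]
    have := hyes x y hxy
    rw [pow_succ]
    linarith
  · rw [key]
    have := hno x y hxy
    linarith

end Pool.Agent.Lib.MP_ff3ed7_lc.B
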