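import Pool.Agent.Lib.MP_ff3ed7_lc.B.Defs
import Pool.Agent.Lib.MP_ff3ed7_lc.TotalComm

/-! `SBP` communication protocols. -/

set_option autoImplicit false

open Finset

namespace Pool.Agent.Lib.MP_ff3ed7_lc.B

/-- `F` has an `SBP` communication protocol: the players use `r` common random bits and exchange at
most `c` bits; the acceptance probability is at least `2 * 2 ^ (-s)` if `F x y` is true, and at
most `2 ^ (-s)` otherwise. -/
def HasSBPcc {X Y : Type} (F : X → Y → Bool) (r s c : ℕ) : Prop :=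
  ∃ P : (Fin r → Bool) → Prot X Y,
    (∀ ρ, (P ρ).CostLE c) ∧
    (∀ x y, F x y = true → 2 * (1 / 2) ^ s ≤ prob r fun ρ => (P ρ).eval x y = true) ∧
    (∀ x y, F x y = false → prob r (fun ρ => (P ρ).eval x y = true) ≤ (1 / 2) ^ s)

end Pool.Agent.Lib.MP_ff3ed7_lc.B
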