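import Pool.Agent.Lib.MP_ff3ed7_lc.B.CCDefs

/-! Signed dual objects and Merlin-Arthur communication protocols. -/

set_option autoImplicit false

open Finset

namespace Pool.Agent.Lib.MP_ff3ed7_lc.B

variable {ι : Type} [Fintype ι] [DecidableEq ι] {f : (ι → Bool) → Bool} {J D : ℕ}

/-- The weights on the inputs of the lifted function. -/
theorem HasSDual.weights (h : HasSDual f J D) (hJ : 1 ≤ J) :
    ∃ w : (ι → Bool × Bool) → (ι → Bool × Bool) → ℝ, ∃ B : ℝ,
      B ^ 2 = 64 ^ Fintype.card ι * (2 * 484 ^ J / 2 ^ D) ∧ Bd w B (fun _ _ => 1) ∧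
      ∀ (G : (ι → Bool × Bool) → (ι → Bool × Bool) → ℝ) (u l m : ℝ), 0 ≤ l → 0 ≤ m →
        (∀ x y, lift f x y = true → u ≤ G x y) → (∀ x y, lift f x y = false → |G x y| ≤ l) →
        (∀ x y, |G x y| ≤ m) →
        8 ^ Fintype.card ι * (u - 22 ^ J * l - 4 * (1 / 128) ^ J * m) ≤
          ∑ x, ∑ y, w x y * G x y := by
  obtain ⟨α, β, γ, hα, hα1, hαf, hβf, hβ, hγ, hD⟩ := h
  have hsm : 4 * (1 / 128 : ℝ) ^ J ≤ 4 := by
    have : (1 / 128 : ℝ) ^ J ≤ 1 := pow_le_one₀ (by norm_num) (by norm_num)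
    linarith
  have h22 : (22 : ℝ) ≤ 22 ^ J := by
    calc (22 : ℝ) = 22 ^ 1 := (pow_one _).symm
      _ ≤ 22 ^ J := pow_le_pow_right₀ (by norm_num) hJ
  have h484 : (22 ^ J : ℝ) ^ 2 = 484 ^ J := by
    rw [← pow_mul, mul_comm, pow_mul]
    norm_num
  refine ⟨fun x y => α (sel x y) - β (sel x y) - γ (sel x y),
    √(64 ^ Fintype.card ι * (2 * 484 ^ J / 2 ^ D)), Real.sq_sqrt (by positivity), ?_, ?_⟩
  · intro a b ha hb
    refine Real.abs_le_sqrt ?_
    have := rect_bound (fun z => α z - β z - γ z) (2 * 484 ^ J / 2 ^ D) ?_ a b ha hb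
    · simpa only [mul_one] using this
    · intro S
      rcases Nat.lt_or_ge D S.card with hS | hS
      · have h3 : |∑ z, (α z - β z - γ z) * ∏ i ∈ S, (if z i then (-1 : ℝ) else 1)| ≤
            2 * 22 ^ J := by
          calc |∑ z, (α z - β z - γ z) * ∏ i ∈ S, (if z i then (-1 : ℝ) else 1)|
              ≤ ∑ z, |(α z - β z - γ z) * ∏ i ∈ S, (if z i then (-1 : ℝ) else 1)| :=
                Finset.abs_sum_le_sum_abs _ _
            _ ≤ ∑ z, (α z + |β z| + |γ z|) := by
                refine Finset.sum_le_sum fun z _ => ?_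
                have h4 : |∏ i ∈ S, (if z i then (-1 : ℝ) else 1)| = 1 := by
                  rw [Finset.abs_prod]
                  exact Finset.prod_eq_one fun i _ => chi_abs (z i)
                rw [abs_mul, h4, mul_one, abs_le]
                have e1 := neg_abs_le (β z)
                have e2 := neg_abs_le (γ z)
                have e3 := le_abs_self (β z)
                have e4 := le_abs_self (γ z)
                constructor <;> linarith [hα z]
            _ ≤ 2 * 22 ^ J := by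
                rw [Finset.sum_add_distrib, Finset.sum_add_distrib, hα1]
                linarith
        have h2 : (∑ z, (α z - β z - γ z) * ∏ i ∈ S, (if z i then (-1 : ℝ) else 1)) ^ 2 ≤
            4 * 484 ^ J := by
          rw [← sq_abs]
          calc _ ≤ (2 * 22 ^ J : ℝ) ^ 2 := pow_le_pow_left₀ (abs_nonneg _) h3 2
            _ = _ := by rw [mul_pow, h484]; norm_num
        refine h2.trans ?_
        have h5 : (2 : ℝ) ^ (D + 1) ≤ 2 ^ S.card := pow_le_pow_right₀ (by norm_num) hS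
        have h6 : (0 : ℝ) < 2 ^ D := by positivity
        have h7 : (0 : ℝ) < 484 ^ J := by positivity
        rw [div_mul_eq_mul_div, le_div_iff₀ h6]
        rw [pow_succ] at h5
        nlinarith
      · have h7 : ∑ z, (α z - β z - γ z) * ∏ i ∈ S, (if z i then (-1 : ℝ) else 1) = 0 := by
          have := hD S hS (fun z => ∏ i ∈ S, (if z i then (-1 : ℝ) else 1)) (by
            intro x y hxy
            exact Finset.prod_congr rfl fun i hi => by rw [hxy i hi])
          simp_rw [sub_mul]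
          rw [Finset.sum_sub_distrib, Finset.sum_sub_distrib, this]
          ring
        rw [h7, zero_pow two_ne_zero]
        positivity
  · intro G u l m hl0 hm0 hu hl hm
    have h1 : 8 ^ Fintype.card ι * u ≤ ∑ x, ∑ y, α (sel x y) * G x y := by
      have : 8 ^ Fintype.card ι * u = ∑ x, ∑ y, α (sel x y) * u := by
        simp_rw [← Finset.sum_mul]
        rw [sum_sel, hα1, mul_one]
      rw [this]
      refine Finset.sum_le_sum fun x _ => Finset.sum_le_sum fun y _ => ?_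
      by_cases h0 : α (sel x y) = 0
      · simp [h0]
      · exact mul_le_mul_of_nonneg_left (hu x y (hαf _ h0)) (hα _)
    have h2 : ∑ x, ∑ y, β (sel x y) * G x y ≤ 8 ^ Fintype.card ι * (22 ^ J * l) := by
      calc ∑ x, ∑ y, β (sel x y) * G x y ≤ ∑ x, ∑ y, |β (sel x y)| * l := by
            refine Finset.sum_le_sum fun x _ => Finset.sum_le_sum fun y _ => ?_
            by_cases h0 : β (sel x y) = 0
            · simp [h0]
            · refine (le_abs_self _).trans ?_
              rw [abs_mul]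
              exact mul_le_mul_of_nonneg_left (hl x y (hβf _ h0)) (abs_nonneg _)
        _ = 8 ^ Fintype.card ι * ((∑ z, |β z|) * l) := by
            simp_rw [← Finset.sum_mul]
            rw [sum_sel fun z => |β z|]
            ring
        _ ≤ _ := by gcongr
    have h3 : ∑ x, ∑ y, γ (sel x y) * G x y ≤ 8 ^ Fintype.card ι * (4 * (1 / 128) ^ J * m) := by
      calc ∑ x, ∑ y, γ (sel x y) * G x y ≤ ∑ x, ∑ y, |γ (sel x y)| * m := by
            refine Finset.sum_le_sum fun x _ => Finset.sum_le_sum fun y _ => ?_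
            refine (le_abs_self _).trans ?_
            rw [abs_mul]
            exact mul_le_mul_of_nonneg_left (hm x y) (abs_nonneg _)
        _ = 8 ^ Fintype.card ι * ((∑ z, |γ z|) * m) := by
            simp_rw [← Finset.sum_mul]
            rw [sum_sel fun z => |γ z|]
            ring
        _ ≤ _ := by gcongr
    simp_rw [sub_mul, Finset.sum_sub_distrib]
    linarith

/-- The numerical estimate. -/
lemma num_cc {p c D : ℕ} {N : ℕ} {B : ℝ}
    (hB : B ^ 2 = 64 ^ N * (2 * 484 ^ (p + 1) / 2 ^ D))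
    (h : 8 ^ N * ((2 / 3 : ℝ) ^ (6 * (p + 1)) - 22 ^ (p + 1) * (2 ^ p * (1 / 3) ^ (6 * (p + 1))) -
      4 * (1 / 128) ^ (p + 1) * 2 ^ p) ≤ 2 ^ p * (2 ^ (6 * (p + 1) * c) * B)) :
    D ≤ 21 * (p + 1) * (c + 1) := by
  have e1 : (2 / 3 : ℝ) ^ (6 * (p + 1)) = (64 / 729) ^ (p + 1) := by
    rw [pow_mul]; norm_num
  have e2 : (1 / 3 : ℝ) ^ (6 * (p + 1)) = (1 / 729) ^ (p + 1) := by
    rw [pow_mul]; norm_num
  have e3 : (2 : ℝ) ^ p = 2 ^ (p + 1) / 2 := by rw [pow_succ]; ring
  rw [e1, e2, e3] at h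
  have hJ : 1 ≤ p + 1 := by omega
  generalize p + 1 = J at h hB hJ ⊢
  have hle : ∀ a : ℝ, 0 ≤ a → a ≤ 1 → a ^ J ≤ a := by
    intro a h0 h1
    calc a ^ J ≤ a ^ 1 := pow_le_pow_of_le_one h0 h1 hJ
      _ = a := pow_one a
  have f1 : (22 : ℝ) ^ J * (2 ^ J / 2 * (1 / 729) ^ J) = (64 / 729) ^ J * (44 / 64) ^ J / 2 := by
    rw [← mul_pow, show (64 / 729 * (44 / 64) : ℝ) = 22 * 2 * (1 / 729) by norm_num, mul_pow,
      mul_pow]
    ring
  have f2 : 4 * (1 / 128 : ℝ) ^ J * (2 ^ J / 2) = 2 * ((64 / 729) ^ J * (729 / 4096) ^ J) := by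
    rw [← mul_pow, show (64 / 729 * (729 / 4096) : ℝ) = 1 / 128 * 2 by norm_num, mul_pow]
    ring
  rw [f1, f2] at h
  have g1 := hle (44 / 64) (by norm_num) (by norm_num)
  have g2 := hle (729 / 4096) (by norm_num) (by norm_num)
  have hx : (0 : ℝ) < (64 / 729) ^ J := by positivity
  have h1 : 8 ^ N * (3 / 10 * (64 / 729 : ℝ) ^ J) ≤ 2 ^ J / 2 * (2 ^ (6 * J * c) * B) := by
    refine le_trans (mul_le_mul_of_nonneg_left ?_ (by positivity)) h
    nlinarith [mul_le_mul_of_nonneg_left g1 hx.le, mul_le_mul_of_nonneg_left g2 hx.le]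
  have h2 := pow_le_pow_left₀ (by positivity) h1 2
  have h3 : (8 ^ N * (3 / 10 * (64 / 729 : ℝ) ^ J)) ^ 2 =
      64 ^ N * (9 / 100 * (4096 / 531441) ^ J) := by
    rw [mul_pow, mul_pow, ← pow_mul, ← pow_mul, mul_comm N 2, mul_comm J 2, pow_mul, pow_mul]
    norm_num
  have h4 : (2 ^ J / 2 * (2 ^ (6 * J * c) * B)) ^ 2 =
      64 ^ N * (1 / 2 * 1936 ^ J * 2 ^ (12 * J * c) / 2 ^ D) := by
    have a1 : (1936 : ℝ) ^ J = (2 ^ J) ^ 2 * 484 ^ J := by
      rw [← pow_mul, mul_comm J 2, pow_mul, ← mul_pow]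
      norm_num
    have a2 : (2 : ℝ) ^ (12 * J * c) = (2 ^ (6 * J * c)) ^ 2 := by
      rw [← pow_mul]
      congr 1
      ring
    calc _ = (2 ^ J) ^ 2 / 4 * ((2 ^ (6 * J * c)) ^ 2 * B ^ 2) := by ring
      _ = _ := by rw [hB, a1, a2]; ring
  rw [h3, h4] at h2
  have h5 := le_of_mul_le_mul_left h2 (by positivity)
  have hD0 : (0 : ℝ) < 2 ^ D := by positivity
  rw [le_div_iff₀ hD0] at h5
  have h6 : (2 : ℝ) ^ D ≤ 2 ^ (3 + 18 * J + 12 * J * c) := by
    have b1 : (4096 / 531441 : ℝ) ^ J * (531441 / 4096) ^ J = 1 := by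
      rw [← mul_pow]
      norm_num
    have b2 : (1936 : ℝ) ^ J * (531441 / 4096) ^ J ≤ 2 ^ (18 * J) := by
      rw [← mul_pow, pow_mul]
      exact pow_le_pow_left₀ (by norm_num) (by norm_num) J
    have h7 := mul_le_mul_of_nonneg_right h5 (show (0 : ℝ) ≤ (531441 / 4096) ^ J by positivity)
    have h8 : 9 / 100 * (4096 / 531441 : ℝ) ^ J * 2 ^ D * (531441 / 4096) ^ J =
        9 / 100 * 2 ^ D * ((4096 / 531441) ^ J * (531441 / 4096) ^ J) := by ring
    have h9 : 1 / 2 * (1936 : ℝ) ^ J * 2 ^ (12 * J * c) * (531441 / 4096) ^ J =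
        1 / 2 * 2 ^ (12 * J * c) * (1936 ^ J * (531441 / 4096) ^ J) := by ring
    rw [h8, b1, mul_one, h9] at h7
    have h10 : 1 / 2 * (2 : ℝ) ^ (12 * J * c) * (1936 ^ J * (531441 / 4096) ^ J) ≤
        1 / 2 * 2 ^ (12 * J * c) * 2 ^ (18 * J) := mul_le_mul_of_nonneg_left b2 (by positivity)
    have h11 : (2 : ℝ) ^ (3 + 18 * J + 12 * J * c) = 8 * (2 ^ (12 * J * c) * 2 ^ (18 * J)) := by
      rw [pow_add, pow_add]
      norm_num
      ring
    rw [h11]
    have h12 : (0 : ℝ) < 2 ^ (12 * J * c) * 2 ^ (18 * J) := by positivity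
    nlinarith
  have h7 : D ≤ 3 + 18 * J + 12 * J * c := (pow_le_pow_iff_right₀ (by norm_num)).mp h6
  nlinarith [Nat.zero_le (J * c)]

theorem HasSDual.macc {p c : ℕ} (h : HasSDual f (p + 1) D) (hp : HasMAcc (lift f) p c) :
    D ≤ 21 * (p + 1) * (c + 1) := by
  obtain ⟨w, B, hB, hw, hG⟩ := h.weights (by omega)
  obtain ⟨r, P, hc, h1, h0⟩ := hp
  have hB0 := hw.nonneg
  set k := 6 * (p + 1) with hk
  have hpr : ∀ (x y) (m), 0 ≤ prob r fun ρ => (P m ρ).eval x y = true := by
    intro x y m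
    unfold prob
    positivity
  have hpr1 : ∀ (x y) (m), (prob r fun ρ => (P m ρ).eval x y = true) ≤ 1 := by
    intro x y m
    unfold prob
    rw [div_le_one (by positivity)]
    have h2 : Nat.card {ρ // (P m ρ).eval x y = true} ≤ 2 ^ r := by
      have h3 := Finite.card_subtype_le fun ρ : Fin r → Bool => (P m ρ).eval x y = true
      simpa using h3
    exact_mod_cast h2
  have hnn : ∀ x y, 0 ≤ ∑ m, (prob r fun ρ => (P m ρ).eval x y = true) ^ k := fun x y =>
    Finset.sum_nonneg fun m _ => pow_nonneg (hpr x y m) k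
  have h2 := hG (fun x y => ∑ m, (prob r fun ρ => (P m ρ).eval x y = true) ^ k)
    ((2 / 3) ^ k) (2 ^ p * (1 / 3) ^ k) (2 ^ p) (by positivity) (by positivity) (by
      intro x y hxy
      obtain ⟨m, hm⟩ := h1 x y hxy
      refine (pow_le_pow_left₀ (by norm_num) hm k).trans ?_
      exact Finset.single_le_sum (f := fun m => (prob r fun ρ => (P m ρ).eval x y = true) ^ k)
        (fun m _ => pow_nonneg (hpr x y m) k) (Finset.mem_univ m)) (by
      intro x y hxy
      rw [abs_of_nonneg (hnn x y)]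
      calc ∑ m, (prob r fun ρ => (P m ρ).eval x y = true) ^ k ≤
            ∑ m : Fin p → Bool, (1 / 3 : ℝ) ^ k := Finset.sum_le_sum fun m _ =>
              pow_le_pow_left₀ (hpr x y m) (h0 x y hxy m) k
        _ = 2 ^ p * (1 / 3) ^ k := by simp) (by
      intro x y
      rw [abs_of_nonneg (hnn x y)]
      calc ∑ m, (prob r fun ρ => (P m ρ).eval x y = true) ^ k ≤
            ∑ m : Fin p → Bool, (1 : ℝ) := Finset.sum_le_sum fun m _ =>
              pow_le_one₀ (hpr x y m) (hpr1 x y m)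
        _ = 2 ^ p := by simp)
  have h3 : ∑ x, ∑ y, w x y * (∑ mρ : (Fin p → Bool) × (Fin k → Fin r → Bool),
      ∏ i, indb ((P mρ.1 (mρ.2 i)).eval x y)) ≤
      Fintype.card ((Fin p → Bool) × (Fin k → Fin r → Bool)) * (2 ^ (k * c) * B) :=
    Bd.sum fun mρ => hw.prods k (fun i => P mρ.1 (mρ.2 i)) fun i => hc _ _
  have h4 : ∑ x, ∑ y, w x y * (∑ m, (prob r fun ρ => (P m ρ).eval x y = true) ^ k) =
      (∑ x, ∑ y, w x y * (∑ mρ : (Fin p → Bool) × (Fin k → Fin r → Bool),
        ∏ i, indb ((P mρ.1 (mρ.2 i)).eval x y))) / 2 ^ (r * k) := by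
    rw [Finset.sum_div]
    refine Finset.sum_congr rfl fun x _ => ?_
    rw [Finset.sum_div]
    refine Finset.sum_congr rfl fun y _ => ?_
    rw [mul_div_assoc]
    congr 1
    rw [Fintype.sum_prod_type, Finset.sum_div]
    exact Finset.sum_congr rfl fun m _ => prob_pow_cc r k _
  refine num_cc hB ?_
  rw [h4] at h2
  refine h2.trans ?_
  rw [div_le_iff₀ (by positivity)]
  refine h3.trans (le_of_eq ?_)
  simp only [Fintype.card_prod, Fintype.card_fun, Fintype.card_fin, Fintype.card_bool]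
  push_cast
  rw [← pow_mul]
  ring

end Pool.Agent.Lib.MP_ff3ed7_lc.B
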