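import Pool.Agent.Lib.MP_ff3ed7_lc.B.Spec

/-! B/CM: classical Merlin-Arthur protocols and SBP protocols against dual objects. -/

set_option autoImplicit false

open Finset

namespace Pool.Agent.Lib.MP_ff3ed7_lc.B

section Junta

variable {ι : Type}

theorem CM_mono {a b : ℕ} (h : a ≤ b) : JR ι Bool a ≤ JR ι Bool b := by
  refine Submodule.span_mono ?_
  rintro g ⟨S, hS, hg⟩
  exact ⟨S, hS.trans h, hg⟩

theorem CM_const (c : ℝ) (D : ℕ) : (fun _ : ι → Bool => c) ∈ JR ι Bool D :=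
  Submodule.subset_span ⟨∅, by simp, fun _ _ _ => rfl⟩

theorem CM_mul [DecidableEq ι] {a b : ℕ} {g h : (ι → Bool) → ℝ} (hg : g ∈ JR ι Bool a)
    (hh : h ∈ JR ι Bool b) : (fun x => g x * h x) ∈ JR ι Bool (a + b) := by
  have h1 : JR ι Bool a * JR ι Bool b ≤ JR ι Bool (a + b) := by
    unfold JR
    rw [Submodule.span_mul_span]
    refine Submodule.span_mono ?_
    rintro _ ⟨u, ⟨S, hS, hu⟩, v, ⟨S', hS', hv⟩, rfl⟩
    refine ⟨S ∪ S', (Finset.card_union_le _ _).trans (add_le_add hS hS'), ?_⟩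
    intro x y hxy
    have e1 := hu x y fun i hi => hxy i (Finset.mem_union_left _ hi)
    have e2 := hv x y fun i hi => hxy i (Finset.mem_union_right _ hi)
    simp only [Pi.mul_apply, e1, e2]
  exact h1 (Submodule.mul_mem_mul hg hh)

theorem CM_sum {κ : Type*} {D : ℕ} (s : Finset κ) (g : κ → (ι → Bool) → ℝ)
    (h : ∀ k ∈ s, g k ∈ JR ι Bool D) : (fun x => ∑ k ∈ s, g k x) ∈ JR ι Bool D := by
  have : (fun x => ∑ k ∈ s, g k x) = ∑ k ∈ s, g k := by
    funext x
    simp
  rw [this]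
  exact Submodule.sum_mem _ h

theorem CM_smul {D : ℕ} (c : ℝ) {g : (ι → Bool) → ℝ} (h : g ∈ JR ι Bool D) :
    (fun x => c * g x) ∈ JR ι Bool D :=
  Submodule.smul_mem _ c h

theorem CM_pow [DecidableEq ι] {D : ℕ} {g : (ι → Bool) → ℝ} (h : g ∈ JR ι Bool D) (k : ℕ) :
    (fun x => g x ^ k) ∈ JR ι Bool (D * k) := by
  induction k with
  | zero =>
    simp only [pow_zero]
    exact CM_const _ _
  | succ k ih =>
    have h1 : (fun x => g x ^ (k + 1)) = fun x => g x ^ k * g x := by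
      funext x
      rw [pow_succ]
    rw [h1, Nat.mul_succ]
    exact CM_mul ih h

theorem CM_tree [DecidableEq ι] (t : DTree ι Bool) : ∀ q : ℕ, t.DepthLE q →
    (fun x => if t.eval x = true then (1 : ℝ) else 0) ∈ JR ι Bool q := by
  induction t with
  | leaf b =>
    intro q _
    simp only [DTree.eval]
    exact CM_const (if b = true then (1 : ℝ) else 0) q
  | node i next ih =>
    intro q hq
    have hq1 : 0 < q := hq.1
    have hq2 : ∀ s, (next s).DepthLE (q - 1) := hq.2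
    have h1 : (fun x : ι → Bool => if (DTree.node i next).eval x = true then (1 : ℝ) else 0) =
        fun x => ∑ s : Bool, (if x i = s then (1 : ℝ) else 0) *
          (if (next s).eval x = true then (1 : ℝ) else 0) := by
      funext x
      rw [Finset.sum_eq_single (x i)]
      · simp [DTree.eval]
      · intro s _ hs
        rw [if_neg (Ne.symm hs), zero_mul]
      · intro h
        exact absurd (Finset.mem_univ _) h
    rw [h1]
    refine CM_sum _ _ fun s _ => ?_
    have h2 : (fun x : ι → Bool => if x i = s then (1 : ℝ) else 0) ∈ JR ι Bool 1 := by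
      refine Submodule.subset_span ⟨{i}, by simp, fun x y hxy => ?_⟩
      have := hxy i (by simp)
      simp only [this]
    have h3 := CM_mul h2 (ih s (q - 1) (hq2 s))
    rwa [show 1 + (q - 1) = q by omega] at h3

theorem CM_probeq (r : ℕ) (s : (Fin r → Bool) → Bool) :
    prob r (fun ρ => s ρ = true) = (1 / 2 ^ r) * ∑ ρ, (if s ρ = true then (1 : ℝ) else 0) := by
  unfold prob
  rw [Finset.sum_boole, Nat.card_eq_fintype_card, Fintype.card_subtype]
  ring

theorem CM_prob [DecidableEq ι] {r q : ℕ} (T : (Fin r → Bool) → DTree ι Bool)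
    (hT : ∀ ρ, (T ρ).DepthLE q) :
    (fun x => prob r fun ρ => (T ρ).eval x = true) ∈ JR ι Bool q := by
  have h1 : (fun x => prob r fun ρ => (T ρ).eval x = true) =
      fun x => (1 / 2 ^ r : ℝ) * ∑ ρ, (if (T ρ).eval x = true then (1 : ℝ) else 0) := by
    funext x
    exact CM_probeq r fun ρ => (T ρ).eval x
  rw [h1]
  refine CM_smul _ ?_
  exact CM_sum _ _ fun ρ _ => CM_tree (T ρ) q (hT ρ)

theorem CM_prob_nonneg (r : ℕ) (E : (Fin r → Bool) → Prop) : 0 ≤ prob r E := by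
  unfold prob
  positivity

theorem CM_prob_le (r : ℕ) (s : (Fin r → Bool) → Bool) : prob r (fun ρ => s ρ = true) ≤ 1 := by
  rw [CM_probeq]
  have h1 : ∑ ρ, (if s ρ = true then (1 : ℝ) else 0) ≤ 2 ^ r := by
    calc ∑ ρ, (if s ρ = true then (1 : ℝ) else 0) ≤ ∑ _ρ : Fin r → Bool, (1 : ℝ) := by
          refine Finset.sum_le_sum fun ρ _ => ?_
          split_ifs <;> norm_num
      _ = 2 ^ r := by simp
  have h2 : (0 : ℝ) < 2 ^ r := by positivity
  rw [one_div, inv_mul_le_iff₀ h2, mul_one]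
  exact h1

end Junta

section Dual

variable {ι : Type} [Fintype ι] [DecidableEq ι] {D : ℕ}

theorem CM_lin (γ u : (ι → Bool) → ℝ) (c : ℝ) :
    ∑ x, γ x * (c * u x) = c * ∑ x, γ x * u x := by
  rw [Finset.mul_sum]
  exact Finset.sum_congr rfl fun x _ => by ring

/-- The identity of the signed dual object for the span of the functions of few bits. -/
theorem CM_dualS {α β γ : (ι → Bool) → ℝ}
    (h : ∀ S : Finset ι, S.card ≤ D → ∀ g : (ι → Bool) → ℝ,
      (∀ x y, (∀ i ∈ S, x i = y i) → g x = g y) →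
      ∑ x, α x * g x = ∑ x, β x * g x + ∑ x, γ x * g x)
    {g : (ι → Bool) → ℝ} (hg : g ∈ JR ι Bool D) :
    ∑ x, α x * g x = ∑ x, β x * g x + ∑ x, γ x * g x := by
  unfold JR at hg
  induction hg using Submodule.span_induction with
  | mem g hg =>
    obtain ⟨S, hS, hg⟩ := hg
    exact h S hS g hg
  | zero => simp
  | add u v _ _ hu hv =>
    simp only [Pi.add_apply, mul_add, Finset.sum_add_distrib, hu, hv]
    ring
  | smul c u _ hu =>
    simp only [Pi.smul_apply, smul_eq_mul]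
    rw [CM_lin, CM_lin, CM_lin, hu]
    ring

/-- The identity of the exact dual object for the span of the functions of few bits. -/
theorem CM_dualE {α β : (ι → Bool) → ℝ}
    (h : ∀ S : Finset ι, S.card ≤ D → ∀ g : (ι → Bool) → ℝ,
      (∀ x y, (∀ i ∈ S, x i = y i) → g x = g y) → ∑ x, α x * g x = ∑ x, β x * g x)
    {g : (ι → Bool) → ℝ} (hg : g ∈ JR ι Bool D) :
    ∑ x, α x * g x = ∑ x, β x * g x := by
  unfold JR at hg
  induction hg using Submodule.span_induction with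
  | mem g hg =>
    obtain ⟨S, hS, hg⟩ := hg
    exact h S hS g hg
  | zero => simp
  | add u v _ _ hu hv =>
    simp only [Pi.add_apply, mul_add, Finset.sum_add_distrib, hu, hv]
  | smul c u _ hu =>
    simp only [Pi.smul_apply, smul_eq_mul]
    rw [CM_lin, CM_lin, hu]

/-- Sums against a signed measure. -/
theorem CM_signed (β P : (ι → Bool) → ℝ) (c : ℝ) (h : ∀ x, β x ≠ 0 → |P x| ≤ c) :
    ∑ x, β x * P x ≤ (∑ x, |β x|) * c := by
  rw [Finset.sum_mul]
  refine Finset.sum_le_sum fun x _ => ?_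
  by_cases hx : β x = 0
  · simp [hx]
  · calc β x * P x ≤ |β x * P x| := le_abs_self _
      _ = |β x| * |P x| := abs_mul _ _
      _ ≤ |β x| * c := mul_le_mul_of_nonneg_left (h x hx) (abs_nonneg _)

end Dual

/-- The final numerical inequality. -/
theorem CM_num (p : ℕ) : (22 : ℝ) ^ (p + 1) * (2 ^ p * (1 / 3) ^ (6 * (p + 1))) +
    4 * (1 / 128) ^ (p + 1) * 2 ^ p < (2 / 3) ^ (6 * (p + 1)) := by
  have h1 : ((1 : ℝ) / 3) ^ (6 * (p + 1)) = (1 / 729) ^ (p + 1) := by
    rw [pow_mul]; norm_num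
  have h2 : ((2 : ℝ) / 3) ^ (6 * (p + 1)) = (64 / 729) ^ (p + 1) := by
    rw [pow_mul]; norm_num
  have h3 : (22 : ℝ) ^ (p + 1) * (2 ^ p * (1 / 729) ^ (p + 1)) = 22 / 729 * (44 / 729) ^ p := by
    rw [pow_succ, pow_succ, show (44 : ℝ) / 729 = 22 * 2 * (1 / 729) by norm_num, mul_pow, mul_pow]
    ring
  have h4 : (4 : ℝ) * (1 / 128) ^ (p + 1) * 2 ^ p = 1 / 32 * (1 / 64) ^ p := by
    rw [pow_succ, show (1 : ℝ) / 64 = 1 / 128 * 2 by norm_num, mul_pow]
    ring
  have h5 : ((44 : ℝ) / 729) ^ p ≤ (64 / 729) ^ p := pow_le_pow_left₀ (by norm_num) (by norm_num) p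
  have h6 : ((1 : ℝ) / 64) ^ p ≤ (64 / 729) ^ p := pow_le_pow_left₀ (by norm_num) (by norm_num) p
  have h7 : (0 : ℝ) < (64 / 729) ^ p := by positivity
  rw [h1, h2, h3, h4, pow_succ]
  nlinarith

theorem CM_ma {ι : Type} [Fintype ι] [DecidableEq ι] (f : (ι → Bool) → Bool) (p q : ℕ)
    (h : HasSDual f (p + 1) (6 * (p + 1) * q)) : ¬ HasMA f p q := by
  rintro ⟨r, T, hT, hyes, hno⟩
  obtain ⟨α, β, γ, hα, hα1, hαf, hβf, hβn, hγn, hdual⟩ := h
  set k := 6 * (p + 1) with hk
  let Q : (Fin p → Bool) → (ι → Bool) → ℝ := fun y x => prob r fun ρ => (T y ρ).eval x = true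
  let P : (ι → Bool) → ℝ := fun x => ∑ y, Q y x ^ k
  have hQ0 : ∀ y x, 0 ≤ Q y x := fun y x => CM_prob_nonneg r _
  have hQ1 : ∀ y x, Q y x ≤ 1 := fun y x => CM_prob_le r fun ρ => (T y ρ).eval x
  have hP0 : ∀ x, 0 ≤ P x := fun x => Finset.sum_nonneg fun y _ => pow_nonneg (hQ0 y x) k
  have hbd : ∀ x (c : ℝ), (∀ y, Q y x ≤ c) → P x ≤ 2 ^ p * c ^ k := by
    intro x c hc
    calc P x ≤ ∑ _y : Fin p → Bool, c ^ k :=
          Finset.sum_le_sum fun y _ => pow_le_pow_left₀ (hQ0 y x) (hc y) k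
      _ = 2 ^ p * c ^ k := by simp
  have hP : P ∈ JR ι Bool (k * q) := by
    have h1 : P = fun x => ∑ y, Q y x ^ k := rfl
    rw [h1, mul_comm k q]
    exact CM_sum _ (fun y x => Q y x ^ k) fun y _ => CM_pow (CM_prob (T y) (hT y)) k
  have hid := CM_dualS hdual hP
  have hlow : ((2 : ℝ) / 3) ^ k ≤ ∑ x, α x * P x := by
    calc ((2 : ℝ) / 3) ^ k = ∑ x, α x * ((2 : ℝ) / 3) ^ k := by
          rw [← Finset.sum_mul, hα1, one_mul]
      _ ≤ ∑ x, α x * P x := by
          refine Finset.sum_le_sum fun x _ => ?_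
          by_cases hx : α x = 0
          · rw [hx, zero_mul, zero_mul]
          · obtain ⟨y, hy⟩ := hyes x (hαf x hx)
            refine mul_le_mul_of_nonneg_left ?_ (hα x)
            calc ((2 : ℝ) / 3) ^ k ≤ Q y x ^ k := pow_le_pow_left₀ (by norm_num) hy k
              _ ≤ P x := Finset.single_le_sum (f := fun y => Q y x ^ k)
                  (fun y _ => pow_nonneg (hQ0 y x) k) (Finset.mem_univ y)
  have hβ : ∑ x, β x * P x ≤ 22 ^ (p + 1) * (2 ^ p * (1 / 3) ^ k) := by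
    refine (CM_signed β P (2 ^ p * (1 / 3) ^ k) fun x hx => ?_).trans ?_
    · rw [abs_of_nonneg (hP0 x)]
      exact hbd x _ fun y => hno x (hβf x hx) y
    · exact mul_le_mul_of_nonneg_right hβn (by positivity)
  have hγ : ∑ x, γ x * P x ≤ 4 * (1 / 128) ^ (p + 1) * 2 ^ p := by
    refine (CM_signed γ P (2 ^ p) fun x _ => ?_).trans ?_
    · rw [abs_of_nonneg (hP0 x)]
      have := hbd x 1 fun y => hQ1 y x
      simpa using this
    · exact mul_le_mul_of_nonneg_right hγn (by positivity)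
  have hnum := CM_num p
  rw [← hk] at hnum
  linarith

theorem CM_sbp {ι : Type} [Fintype ι] [DecidableEq ι] (f : (ι → Bool) → Bool) (r s q D : ℕ)
    (h : HasExactDual f D) (hs : HasSBP f r s q) : D < q := by
  by_contra hD
  push Not at hD
  obtain ⟨α, β, hα, hβ, hα1, hβ1, hαf, hβf, hdual⟩ := h
  obtain ⟨T, hT, hyes, hno⟩ := hs
  let P : (ι → Bool) → ℝ := fun x => prob r fun ρ => (T ρ).eval x = true
  have hP : P ∈ JR ι Bool D := CM_mono hD (CM_prob T hT)
  have hid := CM_dualE hdual hP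
  have hlow : 2 * ((1 : ℝ) / 2) ^ s ≤ ∑ x, α x * P x := by
    calc 2 * ((1 : ℝ) / 2) ^ s = ∑ x, α x * (2 * ((1 : ℝ) / 2) ^ s) := by
          rw [← Finset.sum_mul, hα1, one_mul]
      _ ≤ ∑ x, α x * P x := by
          refine Finset.sum_le_sum fun x _ => ?_
          by_cases hx : α x = 0
          · rw [hx, zero_mul, zero_mul]
          · exact mul_le_mul_of_nonneg_left (hyes x (hαf x hx)) (hα x)
  have hup : ∑ x, β x * P x ≤ ((1 : ℝ) / 2) ^ s := by
    calc ∑ x, β x * P x ≤ ∑ x, β x * ((1 : ℝ) / 2) ^ s := by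
          refine Finset.sum_le_sum fun x _ => ?_
          by_cases hx : β x = 0
          · rw [hx, zero_mul, zero_mul]
          · exact mul_le_mul_of_nonneg_left (hno x (hβf x hx)) (hβ x)
      _ = ((1 : ℝ) / 2) ^ s := by
          rw [← Finset.sum_mul, hβ1, one_mul]
  have h0 : (0 : ℝ) < (1 / 2) ^ s := by positivity
  linarith

theorem cm : S_CM := by
  intro ι _ _ f
  exact ⟨fun p q h => CM_ma f p q h, fun r s q D h hs => CM_sbp f r s q D h hs⟩

end Pool.Agent.Lib.MP_ff3ed7_lc.B
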