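import Pool.Agent.Lib.MP_ff3ed7_lc.B.Spec

/-!
# A total Boolean function in SBP and not in QMA: cardinalities
-/

set_option autoImplicit false

open Finset

namespace Pool.Agent.Lib.MP_ff3ed7_lc.B

variable {n m : ℕ}

private def Card_bxEquiv : BX n m ≃ Fin m ⊕ Unit ⊕ Fin m ⊕ (Fin m × Fin n) ⊕ (Fin m × Fin (n + 1)) ⊕
    (Fin (2 * n) × Fin m) ⊕ (Fin (2 * n) × Fin (m + 1)) where
  toFun
    | .z c => .inl c
    | .b => .inr (.inl ())
    | .e c => .inr (.inr (.inl c))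
    | .x c t => .inr (.inr (.inr (.inl (c, t))))
    | .y c t => .inr (.inr (.inr (.inr (.inl (c, t)))))
    | .u t c => .inr (.inr (.inr (.inr (.inr (.inl (t, c))))))
    | .w t c => .inr (.inr (.inr (.inr (.inr (.inr (t, c))))))
  invFun
    | .inl c => .z c
    | .inr (.inl ()) => .b
    | .inr (.inr (.inl c)) => .e c
    | .inr (.inr (.inr (.inl (c, t)))) => .x c t
    | .inr (.inr (.inr (.inr (.inl (c, t))))) => .y c t
    | .inr (.inr (.inr (.inr (.inr (.inl (t, c)))))) => .u t c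
    | .inr (.inr (.inr (.inr (.inr (.inr (t, c)))))) => .w t c
  left_inv := by rintro (_ | _ | _ | _ | _ | _ | _) <;> rfl
  right_inv := by rintro (_ | _ | _ | _ | _ | _ | _) <;> rfl

private def Card_bqEquiv : BQ n m ≃ Fin m ⊕ (Fin m × Fin n) ⊕ Fin m ⊕ Fin m ⊕ (Fin m × Fin m × Fin n) ⊕
    Fin (2 * n) ⊕ (Fin (2 * n) × Fin m) ⊕ Fin (2 * n) ⊕ (Fin (2 * n) × Fin m) ⊕
    (Fin (2 * n) × Fin (2 * n) × Fin m) where
  toFun
    | .c1 c => .inl c
    | .c2 c t => .inr (.inl (c, t))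
    | .c3 c => .inr (.inr (.inl c))
    | .c4 c => .inr (.inr (.inr (.inl c)))
    | .c5 c c' t => .inr (.inr (.inr (.inr (.inl (c, c', t)))))
    | .d1 t => .inr (.inr (.inr (.inr (.inr (.inl t)))))
    | .d2 t c => .inr (.inr (.inr (.inr (.inr (.inr (.inl (t, c)))))))
    | .d3 t => .inr (.inr (.inr (.inr (.inr (.inr (.inr (.inl t)))))))
    | .d4 t c => .inr (.inr (.inr (.inr (.inr (.inr (.inr (.inr (.inl (t, c)))))))))
    | .d5 t t' c => .inr (.inr (.inr (.inr (.inr (.inr (.inr (.inr (.inr (t, t', c)))))))))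
  invFun
    | .inl c => .c1 c
    | .inr (.inl (c, t)) => .c2 c t
    | .inr (.inr (.inl c)) => .c3 c
    | .inr (.inr (.inr (.inl c))) => .c4 c
    | .inr (.inr (.inr (.inr (.inl (c, c', t))))) => .c5 c c' t
    | .inr (.inr (.inr (.inr (.inr (.inl t))))) => .d1 t
    | .inr (.inr (.inr (.inr (.inr (.inr (.inl (t, c))))))) => .d2 t c
    | .inr (.inr (.inr (.inr (.inr (.inr (.inr (.inl t))))))) => .d3 t
    | .inr (.inr (.inr (.inr (.inr (.inr (.inr (.inr (.inl (t, c))))))))) => .d4 t c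
    | .inr (.inr (.inr (.inr (.inr (.inr (.inr (.inr (.inr (t, t', c))))))))) => .d5 t t' c
  left_inv := by rintro (_ | _ | _ | _ | _ | _ | _ | _ | _ | _) <;> rfl
  right_inv := by rintro (_ | _ | _ | _ | _ | _ | _ | _ | _ | _) <;> rfl

private lemma Card_bx : Fintype.card (BX n m) =
    m + (1 + (m + (m * n + (m * (n + 1) + (2 * n * m + 2 * n * (m + 1)))))) := by
  rw [Fintype.card_congr Card_bxEquiv]
  simp [Fintype.card_sum, Fintype.card_prod]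

private lemma Card_bq : Fintype.card (BQ n m) =
    m + (m * n + (m + (m + (m * (m * n) + (2 * n + (2 * n * m + (2 * n + (2 * n * m +
      2 * n * (2 * n * m))))))))) := by
  rw [Fintype.card_congr Card_bqEquiv]
  simp [Fintype.card_sum, Fintype.card_prod]

private lemma Card_x_le (hn : 1 ≤ n) : Fintype.card (BX n (512 * n ^ 3)) ≤ 8192 * n ^ 4 := by
  rw [Card_bx]
  have h0 : 1 ≤ n ^ 4 := Nat.one_le_pow _ _ hn
  have h1 : n ≤ n ^ 4 := Nat.le_self_pow (by norm_num) n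
  have h3 : n ^ 3 ≤ n ^ 4 := Nat.pow_le_pow_right hn (by norm_num)
  have e : 512 * n ^ 3 + (1 + (512 * n ^ 3 + (512 * n ^ 3 * n + (512 * n ^ 3 * (n + 1) +
      (2 * n * (512 * n ^ 3) + 2 * n * (512 * n ^ 3 + 1)))))) =
      1536 * n ^ 3 + 3072 * n ^ 4 + 2 * n + 1 := by ring
  rw [e]
  omega

private lemma Card_q_le (hn : 1 ≤ n) : Fintype.card (BQ n (512 * n ^ 3)) ≤ 270336 * n ^ 7 := by
  rw [Card_bq]
  have h1 : n ≤ n ^ 7 := Nat.le_self_pow (by norm_num) n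
  have h3 : n ^ 3 ≤ n ^ 7 := Nat.pow_le_pow_right hn (by norm_num)
  have h4 : n ^ 4 ≤ n ^ 7 := Nat.pow_le_pow_right hn (by norm_num)
  have h5 : n ^ 5 ≤ n ^ 7 := Nat.pow_le_pow_right hn (by norm_num)
  have e : 512 * n ^ 3 + (512 * n ^ 3 * n + (512 * n ^ 3 + (512 * n ^ 3 +
      (512 * n ^ 3 * (512 * n ^ 3 * n) + (2 * n + (2 * n * (512 * n ^ 3) + (2 * n +
        (2 * n * (512 * n ^ 3) + 2 * n * (2 * n * (512 * n ^ 3)))))))))) =
      262144 * n ^ 7 + 2048 * n ^ 5 + 2560 * n ^ 4 + 1536 * n ^ 3 + 4 * n := by ring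
  rw [e]
  omega

private lemma Card_q_ge (n : ℕ) : 262144 * n ^ 7 ≤ Fintype.card (BQ n (512 * n ^ 3)) := by
  rw [Card_bq]
  have e : 512 * n ^ 3 + (512 * n ^ 3 * n + (512 * n ^ 3 + (512 * n ^ 3 +
      (512 * n ^ 3 * (512 * n ^ 3 * n) + (2 * n + (2 * n * (512 * n ^ 3) + (2 * n +
        (2 * n * (512 * n ^ 3) + 2 * n * (2 * n * (512 * n ^ 3)))))))))) =
      262144 * n ^ 7 + 2048 * n ^ 5 + 2560 * n ^ 4 + 1536 * n ^ 3 + 4 * n := by ring
  rw [e]
  omega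

/-- **Card.** -/
theorem card : S_Card := by
  intro n hn
  have hq := Card_q_le hn
  have hq' := Card_q_ge n
  have hx := Card_x_le hn
  have e0 : 1 ≤ n ^ 2 := Nat.one_le_pow _ _ hn
  have e1 : (n + 1) * (n + 1) ≤ 4 * n ^ 2 := by nlinarith
  have e2 : (n + 1) * (n + 2) ≤ 6 * n ^ 2 := by nlinarith
  have e3 : n + 2 ≤ 3 * n ^ 2 := by nlinarith
  have e4 : n + 1 ≤ 2 * n := by omega
  have e5 : n + 2 ≤ 3 * n := by omega
  have e6 : n + 1 ≤ 2 * n ^ 2 := by nlinarith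
  refine ⟨?_, ?_, ?_⟩
  · rw [card_tcell]
    set q := Fintype.card (BQ n (512 * n ^ 3))
    have h1 : 262144 * n ^ 7 * (n * n) ≤ q * ((n + 1) * (n + 1)) :=
      Nat.mul_le_mul hq' (Nat.mul_le_mul (by omega) (by omega))
    have h2 : 262144 * n ^ 7 * (n * n) ≤ q * ((n + 1) * (n + 2)) :=
      Nat.mul_le_mul hq' (Nat.mul_le_mul (by omega) (by omega))
    have h3 : 2 ^ 19 * n ^ 9 = 262144 * n ^ 7 * (n * n) + 262144 * n ^ 7 * (n * n) := by ring
    rw [h3]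
    omega
  · rw [card_tcell, Fintype.card_fin]
    set x := Fintype.card (BX n (512 * n ^ 3))
    set q := Fintype.card (BQ n (512 * n ^ 3))
    have h3 : n ^ 3 ≤ n ^ 9 := Nat.pow_le_pow_right hn (by norm_num)
    have h4 : n ^ 4 ≤ n ^ 9 := Nat.pow_le_pow_right hn (by norm_num)
    have h5 : n ^ 5 ≤ n ^ 9 := Nat.pow_le_pow_right hn (by norm_num)
    calc _ ≤ 512 * n ^ 3 + (8192 * n ^ 4 * (2 * n) + (512 * n ^ 3 * (3 * n) +
        (270336 * n ^ 7 * (4 * n ^ 2) + (270336 * n ^ 7 * (6 * n ^ 2) +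
          270336 * n ^ 7 * (3 * n ^ 2))))) := by gcongr
      _ = 512 * n ^ 3 + 1536 * n ^ 4 + 16384 * n ^ 5 + 3514368 * n ^ 9 := by ring
      _ ≤ 2 ^ 22 * n ^ 9 := by omega
  · rw [card_defect, Fintype.card_fin]
    set q := Fintype.card (BQ n (512 * n ^ 3))
    have h3 : n ^ 3 ≤ n ^ 10 := Nat.pow_le_pow_right hn (by norm_num)
    have h4 : n ^ 4 ≤ n ^ 10 := Nat.pow_le_pow_right hn (by norm_num)
    have h5 : n ^ 5 ≤ n ^ 10 := Nat.pow_le_pow_right hn (by norm_num)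
    have e7 : q ≤ 270336 * n ^ 7 * n ^ 2 := hq.trans (Nat.le_mul_of_pos_right _ (by omega))
    calc _ ≤ 512 * n ^ 3 + (512 * n ^ 3 + (512 * n ^ 3 * (2 * n) + (512 * n ^ 3 +
        (270336 * n ^ 7 * (4 * n ^ 2) + (270336 * n ^ 7 * (2 * n ^ 2) + (270336 * n ^ 7 * (2 * n ^ 2) +
          (270336 * n ^ 7 * (4 * n ^ 2) + (270336 * n ^ 7 * n ^ 2 + (270336 * n ^ 7 * (2 * n ^ 2) +
            270336 * n ^ 7 * n ^ 2))))))))) * (2 * n) := by gcongr
      _ = 512 * n ^ 3 + 2048 * n ^ 4 + 2048 * n ^ 5 + 8650752 * n ^ 10 := by ring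
      _ ≤ 2 ^ 24 * n ^ 10 := by omega

end Pool.Agent.Lib.MP_ff3ed7_lc.B
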