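import Pool.Agent.Lib.MP_ff3ed7_lc.B.Spec

/-! The total Boolean functions. -/

set_option autoImplicit false

open Finset

namespace Pool.Agent.Lib.MP_ff3ed7_lc.B

lemma HasSBP.transfer {ι σ κ τ : Type} {f : (ι → σ) → Bool} {g : (κ → τ) → Bool} (e : κ → ι)
    (s : σ → τ) (hfg : ∀ x : ι → σ, f x = g fun k => s (x (e k))) {r t q : ℕ}
    (h : HasSBP g r t q) : HasSBP f r t q := by
  obtain ⟨T, hT, hyes, hno⟩ := h
  refine ⟨fun ρ => (T ρ).conv e fun _ => s, fun ρ => DTree.depthLE_conv (hT ρ),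
    fun x hx => ?_, fun x hx => ?_⟩
  · rw [hfg] at hx
    simpa only [DTree.eval_conv] using hyes _ hx
  · rw [hfg] at hx
    simpa only [DTree.eval_conv] using hno _ hx

lemma HasSDual.equiv {ι κ : Type} [Fintype ι] [DecidableEq ι] [Fintype κ] [DecidableEq κ]
    {f : (ι → Bool) → Bool} {J D : ℕ} (h : HasSDual f J D) (e : ι ≃ κ) :
    HasSDual (fun x : κ → Bool => f fun i => x (e i)) J D := by
  obtain ⟨α, β, γ, hα, hα1, hfα, hfβ, hβ, hγ, horth⟩ := h
  let E : (κ → Bool) ≃ (ι → Bool) := e.symm.arrowCongr (Equiv.refl Bool)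
  have hE : ∀ x, E x = fun i => x (e i) := by
    intro x
    funext i
    simp [E]
  refine ⟨fun x => α (E x), fun x => β (E x), fun x => γ (E x), fun x => hα _, ?_, ?_, ?_, ?_, ?_,
    ?_⟩
  · rw [E.sum_comp α, hα1]
  · intro x hx
    have := hfα _ hx
    rwa [hE] at this
  · intro x hx
    have := hfβ _ hx
    rwa [hE] at this
  · rw [E.sum_comp fun x => |β x|]
    exact hβ
  · rw [E.sum_comp fun x => |γ x|]
    exact hγ
  · intro S hS g hg
    have h1 : ∀ γ : (ι → Bool) → ℝ, ∑ x, γ (E x) * g x = ∑ y, γ y * g (E.symm y) := by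
      intro γ
      rw [← E.sum_comp fun y => γ y * g (E.symm y)]
      simp
    rw [h1, h1, h1]
    refine horth (S.image e.symm) (card_image_le.trans hS) (fun y => g (E.symm y)) ?_
    intro x y hxy
    apply hg
    intro i hi
    have := hxy (e.symm i) (mem_image_of_mem _ hi)
    simpa [E] using this

/-- The `SBP` protocol for `fB ℓ`. -/
lemma hasSBP_fB (hu : S_Up) (hc : S_Card) (ℓ : ℕ) :
    HasSBP (fB ℓ) (10 * ℓ + 24) (9 * ℓ + 24) 10 := by
  refine HasSBP.transfer (e := id) (s := bz) (fun x => rfl) ?_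
  have h := hu (2 ^ ℓ) (512 * (2 ^ ℓ) ^ 3) (2 ^ ℓ) ℓ (10 * ℓ + 24) rfl (by omega)
    (((hc (2 ^ ℓ) Nat.one_le_two_pow).2.2).trans (le_of_eq (by ring)))
  have e : 10 * ℓ + 24 - ℓ = 9 * ℓ + 24 := by omega
  rw [e] at h
  exact h

theorem fin : S_Fin := by
  intro hu hsd hhid hval hmom hwt hprd hqm hcm hcard ℓ
  have hn1 : 1 ≤ 2 ^ ℓ := Nat.one_le_two_pow
  obtain ⟨hc1, hc2, -⟩ := hcard (2 ^ ℓ) hn1
  let e : BCl (2 ^ ℓ) ≃ Fin (Fintype.card (BCl (2 ^ ℓ))) := Fintype.equivFin _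
  have hdual : ∀ J D, 1 ≤ J → J ≤ 2 ^ ℓ → D ≤ 2 ^ ℓ →
      HasSDual (fun x => fB ℓ fun c => x (e c)) J D :=
    fun J D h1 h2 h3 => (hsd hhid hval hmom hwt hprd ℓ J D h1 h2 h3).equiv e
  refine ⟨Fintype.card (BCl (2 ^ ℓ)), fun x => fB ℓ fun c => x (e c), ?_, ?_, ?_, ?_, ?_⟩
  · refine le_trans (le_of_eq ?_) hc1
    ring
  · refine hc2.trans (le_of_eq ?_)
    ring
  · exact HasSBP.transfer (e := e) (s := id) (fun x => rfl) (hasSBP_fB hu hcard ℓ)
  · intro p q h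
    by_contra hcon
    push Not at hcon
    have h1 : p + 1 ≤ 2 ^ ℓ := by nlinarith
    have h2 : 6 * (p + 1) * q ≤ 2 ^ ℓ := by nlinarith
    exact (hcm _ _).1 p q (hdual (p + 1) _ (by omega) h1 h2) h
  · intro p T h
    by_contra hcon
    push Not at hcon
    have h1 : p + 1 ≤ 2 ^ ℓ := by nlinarith
    have h2 : 12 * (p + 1) * T ≤ 2 ^ ℓ := by nlinarith
    exact hqm _ _ p T (hdual (p + 1) _ (by omega) h1 h2) h

end Pool.Agent.Lib.MP_ff3ed7_lc.B
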