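import Pool.Agent.Lib.MP_ff3ed7_lc.B.Spec

/-! Soundness and completeness of the system `bSys n M`. -/

set_option autoImplicit false

open Finset

namespace Pool.Agent.Lib.MP_ff3ed7_lc.B

variable {n M : ℕ}

/-- Disjunctions. -/
noncomputable def Gap_or {K : ℕ} (d : Fin K → ZMod 2) (k : Fin (K + 1)) : ZMod 2 := by
  classical
  exact if ∃ i, i.castSucc < k ∧ d i = 1 then 1 else 0

lemma Gap_or_zero {K : ℕ} (d : Fin K → ZMod 2) : Gap_or d 0 = 0 := by
  simp [Gap_or]

lemma Gap_or_last {K : ℕ} {d : Fin K → ZMod 2} (h : ∃ i, d i = 1) : Gap_or d (Fin.last K) = 1 := by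
  obtain ⟨i, hi⟩ := h
  unfold Gap_or
  rw [if_pos ⟨i, Fin.castSucc_lt_last i, hi⟩]

lemma Gap_or_succ {K : ℕ} (d : Fin K → ZMod 2) (i : Fin K) :
    (1 + Gap_or d i.castSucc) * (1 + d i) = 1 + Gap_or d i.succ := by
  by_cases h1 : ∃ j : Fin K, j.castSucc < i.castSucc ∧ d j = 1
  · have h2 : ∃ j : Fin K, j.castSucc < i.succ ∧ d j = 1 := by
      obtain ⟨j, hj, hd⟩ := h1
      exact ⟨j, hj.trans (Fin.castSucc_lt_succ), hd⟩
    simp only [Gap_or, if_pos h1, if_pos h2]
    have : (1 + 1 : ZMod 2) = 0 := by decide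
    rw [this, zero_mul]
  · by_cases h3 : d i = 1
    · have h2 : ∃ j : Fin K, j.castSucc < i.succ ∧ d j = 1 := ⟨i, Fin.castSucc_lt_succ, h3⟩
      simp only [Gap_or, if_neg h1, if_pos h2, h3]
      decide
    · have h2 : ¬ ∃ j : Fin K, j.castSucc < i.succ ∧ d j = 1 := by
        rintro ⟨j, hj, hd⟩
        by_cases hji : j = i
        · rw [hji] at hd; exact h3 hd
        · apply h1
          refine ⟨j, ?_, hd⟩
          simp only [Fin.lt_def, Fin.val_castSucc, Fin.val_succ] at hj ⊢
          have : j.1 ≠ i.1 := fun h => hji (Fin.ext h)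
          omega
      simp only [Gap_or, if_neg h1, if_neg h2]
      rw [zmod2_ne_one h3]
      ring

lemma Gap_sound {g : BX n M → ZMod 2} (hg : ∀ q, ((bSys n M).eqn q).Sat g) :
    Adm n (pat fun c => g (.z c)) := by
  classical
  have hy : ∀ c, g (.y c (Fin.last n)) = 1 → ∃ t, g (.x c t) = 1 := by
    intro c hc
    have h0 : g (.y c 0) = 0 := by
      have := hg (.c1 c)
      simpa [Eqn.Sat, bSys, Aff.ev, Aff.lin] using this
    have := (or_chain (fun k => g (.y c k)) (fun j => g (.x c j)) h0 (fun i => by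
      have := hg (.c2 c i)
      simpa [Eqn.Sat, bSys, Aff.ev, Aff.lin] using this) (Fin.last n)).mp hc
    obtain ⟨t, -, ht⟩ := this
    exact ⟨t, ht⟩
  have hw : ∀ t, g (.w t (Fin.last M)) = 1 → ∃ c, g (.u t c) = 1 := by
    intro t ht
    have h0 : g (.w t 0) = 0 := by
      have := hg (.d1 t)
      simpa [Eqn.Sat, bSys, Aff.ev, Aff.lin] using this
    have := (or_chain (fun k => g (.w t k)) (fun j => g (.u t j)) h0 (fun i => by
      have := hg (.d2 t i)
      simpa [Eqn.Sat, bSys, Aff.ev, Aff.lin] using this) (Fin.last M)).mp ht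
    obtain ⟨c, -, hc⟩ := this
    exact ⟨c, hc⟩
  rcases zmod2_cases (g .b) with hb | hb
  · left
    have h5 : ∀ c c' t, g (.x c t) = 1 → g (.x c' t) = 1 → c = c' := by
      intro v w t h1 h2
      by_contra hvw
      have := hg (.c5 v w t)
      simp [Eqn.Sat, bSys, Aff.ev, Aff.lin, hvw, h1, h2] at this
    have h4 : ∀ c ∈ pat (fun c => g (.z c)), ∃ t, g (.x c t) = 1 := by
      intro c hc
      simp only [pat, mem_filter, mem_univ, true_and] at hc
      apply hy
      have e3 := hg (.c3 c)
      have e4 := hg (.c4 c)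
      simp only [Eqn.Sat, bSys, Aff.ev, Aff.lin, List.map_cons, List.map_nil, List.sum_cons,
        List.sum_nil, add_zero, zero_add, hc, hb, mul_one] at e3 e4
      rw [← e3, one_mul] at e4
      rcases zmod2_cases (g (.y c (Fin.last n))) with h | h
      · rw [h] at e4
        exact absurd e4 (by decide)
      · exact h
    rcases Nat.eq_zero_or_pos n with hn0 | hn
    · subst hn0
      rw [Nat.le_zero, card_eq_zero, eq_empty_iff_forall_notMem]
      intro c hc
      obtain ⟨t, -⟩ := h4 c hc
      exact t.elim0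
    have : Nonempty (Fin n) := ⟨⟨0, hn⟩⟩
    choose! t ht using h4
    have hinj : Set.InjOn t (pat (fun c => g (.z c)) : Set (Fin M)) := by
      intro v hv w hw hvw
      have h1 := ht v hv
      have h2 := ht w hw
      rw [hvw] at h1
      exact h5 v w _ h1 h2
    have h7 := card_le_card_of_injOn t (fun v _ => mem_coe.mpr (mem_univ (t v))) hinj
    simpa using h7
  · right
    have h5 : ∀ t t' c, g (.u t c) = 1 → g (.u t' c) = 1 → t = t' := by
      intro v w c h1 h2
      by_contra hvw
      have := hg (.d5 v w c)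
      simp [Eqn.Sat, bSys, Aff.ev, Aff.lin, hvw, h1, h2] at this
    have h4 : ∀ t : Fin (2 * n), ∃ c, g (.u t c) = 1 := by
      intro t
      apply hw
      have e3 := hg (.d3 t)
      simp only [Eqn.Sat, bSys, Aff.ev, Aff.lin, List.map_cons, List.map_nil, List.sum_cons,
        List.sum_nil, add_zero, zero_add, hb, one_mul] at e3
      rcases zmod2_cases (g (.w t (Fin.last M))) with h | h
      · rw [h] at e3
        exact absurd e3 (by decide)
      · exact h
    choose c hc using h4
    have hmem : ∀ t, c t ∈ pat (fun c => g (.z c)) := by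
      intro t
      simp only [pat, mem_filter, mem_univ, true_and]
      have e4 := hg (.d4 t (c t))
      simp only [Eqn.Sat, bSys, Aff.ev, Aff.lin, List.map_cons, List.map_nil, List.sum_cons,
        List.sum_nil, add_zero, zero_add, hc, one_mul] at e4
      rcases zmod2_cases (g (.z (c t))) with h | h
      · rw [h] at e4
        exact absurd e4 (by decide)
      · exact h
    have hinj : Function.Injective c := by
      intro v w hvw
      have h1 := hc v
      rw [hvw] at h1
      exact h5 v w _ h1 (hc w)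
    have h7 := card_le_card_of_injOn (s := (univ : Finset (Fin (2 * n)))) c
      (fun t _ => mem_coe.mpr (hmem t)) hinj.injOn
    simpa using h7

lemma Gap_graph {K L : ℕ} (A : Finset (Fin K)) (hA : A.card ≤ L) :
    ∃ x : Fin K → Fin L → ZMod 2, (∀ c ∈ A, ∃ t, x c t = 1) ∧
      ∀ c c' t, x c t = 1 → x c' t = 1 → c = c' := by
  classical
  obtain ⟨emb⟩ : Nonempty (A ↪ Fin L) :=
    Function.Embedding.nonempty_of_card_le (by simpa using hA)
  refine ⟨fun c t => if h : c ∈ A then (if emb ⟨c, h⟩ = t then 1 else 0) else 0, ?_, ?_⟩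
  · intro c hc
    exact ⟨emb ⟨c, hc⟩, by simp [hc]⟩
  · intro v w t h1 h2
    simp only at h1 h2
    by_cases hv : v ∈ A
    · by_cases hw : w ∈ A
      · rw [dif_pos hv] at h1
        rw [dif_pos hw] at h2
        have e1 : emb ⟨v, hv⟩ = t := by by_contra h; rw [if_neg h] at h1; exact zero_ne_one h1
        have e2 : emb ⟨w, hw⟩ = t := by by_contra h; rw [if_neg h] at h2; exact zero_ne_one h2
        have := emb.injective (e1.trans e2.symm)
        exact congrArg Subtype.val this
      · rw [dif_neg hw] at h2; exact absurd h2 zero_ne_one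
    · rw [dif_neg hv] at h1; exact absurd h1 zero_ne_one

lemma Gap_mul_eq_zero {a b : ZMod 2} (h : ¬ (a = 1 ∧ b = 1)) : a * b = 0 := by
  rcases zmod2_cases a with ha | ha
  · rw [ha, zero_mul]
  · rcases zmod2_cases b with hb | hb
    · rw [hb, mul_zero]
    · exact absurd ⟨ha, hb⟩ h

lemma Gap_complete (T : Finset (Fin M)) (hT : Adm n T) :
    ∃ g : BX n M → ZMod 2, (∀ q, ((bSys n M).eqn q).Sat g) ∧
      ∀ c, g (.z c) = if c ∈ T then 1 else 0 := by
  classical
  have two : (1 + 1 : ZMod 2) = 0 := by decide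
  -- the data
  obtain ⟨b, e, x, u, he, hx, hx1, hu1, hbu, hu⟩ : ∃ (b : ZMod 2) (e : Fin M → ZMod 2)
      (x : Fin M → Fin n → ZMod 2) (u : Fin (2 * n) → Fin M → ZMod 2),
      (∀ c, (if c ∈ T then (1 : ZMod 2) else 0) * (1 + b) = e c) ∧
      (∀ c, e c = 1 → ∃ t, x c t = 1) ∧ (∀ c c' t, x c t = 1 → x c' t = 1 → c = c') ∧
      (∀ t t' c, u t c = 1 → u t' c = 1 → t = t') ∧
      (b = 1 → ∀ t, ∃ c, u t c = 1) ∧ (∀ t c, u t c = 1 → c ∈ T) := by
    rcases hT with hT | hT
    · obtain ⟨x, hx1, hx2⟩ := Gap_graph T hT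
      refine ⟨0, fun c => if c ∈ T then 1 else 0, x, fun _ _ => 0, fun c => by simp, ?_, hx2,
        ?_, ?_, ?_⟩
      · intro c hc
        apply hx1
        by_contra h
        simp only [if_neg h] at hc
        exact zero_ne_one hc
      · intro t t' c h
        exact absurd h zero_ne_one
      · intro h
        exact absurd h zero_ne_one
      · intro t c h
        exact absurd h zero_ne_one
    · obtain ⟨emb⟩ : Nonempty (Fin (2 * n) ↪ T) :=
        Function.Embedding.nonempty_of_card_le (by simpa using hT)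
      refine ⟨1, fun _ => 0, fun _ _ => 0, fun t c => if (emb t : Fin M) = c then 1 else 0,
        fun c => by rw [two, mul_zero], ?_, ?_, ?_, ?_, ?_⟩
      · intro c h
        exact absurd h zero_ne_one
      · intro c c' t h
        exact absurd h zero_ne_one
      · intro t t' c h1 h2
        simp only [ite_eq_left_iff, zero_ne_one, imp_false, not_not] at h1 h2
        exact emb.injective (Subtype.ext (h1.trans h2.symm))
      · intro _ t
        exact ⟨emb t, by simp⟩
      · intro t c h
        simp only [ite_eq_left_iff, zero_ne_one, imp_false, not_not] at h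
        rw [← h]
        exact (emb t).2
  let g : BX n M → ZMod 2 := fun c => match c with
    | .z c => if c ∈ T then 1 else 0
    | .b => b
    | .e c => e c
    | .x c t => x c t
    | .y c k => Gap_or (x c) k
    | .u t c => u t c
    | .w t k => Gap_or (u t) k
  refine ⟨g, ?_, fun c => rfl⟩
  intro q
  cases q with
  | c1 c => simp [Eqn.Sat, bSys, Aff.ev, Aff.lin, g, Gap_or_zero]
  | c2 c t => simpa [Eqn.Sat, bSys, Aff.ev, Aff.lin, g] using Gap_or_succ (x c) t
  | c3 c =>
    have := he c
    simpa only [Eqn.Sat, bSys, Aff.ev, Aff.lin, g, List.map_cons, List.map_nil, List.sum_cons,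
      List.sum_nil, add_zero, zero_add] using this
  | c4 c =>
    simp only [Eqn.Sat, bSys, Aff.ev, Aff.lin, g, List.map_cons, List.map_nil, List.sum_cons,
      List.sum_nil, add_zero, zero_add]
    rcases zmod2_cases (e c) with h | h
    · rw [h, zero_mul]
    · rw [Gap_or_last (hx c h), two, mul_zero]
  | c5 c c' t =>
    by_cases hc : c = c'
    · simp [Eqn.Sat, bSys, Aff.ev, Aff.lin, hc]
    · simp only [Eqn.Sat, bSys, Aff.ev, Aff.lin, if_neg hc, List.map_cons, List.map_nil,
        List.sum_cons, List.sum_nil, add_zero, zero_add, g]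
      exact Gap_mul_eq_zero fun h => hc (hx1 c c' t h.1 h.2)
  | d1 t => simp [Eqn.Sat, bSys, Aff.ev, Aff.lin, g, Gap_or_zero]
  | d2 t c => simpa [Eqn.Sat, bSys, Aff.ev, Aff.lin, g] using Gap_or_succ (u t) c
  | d3 t =>
    simp only [Eqn.Sat, bSys, Aff.ev, Aff.lin, g, List.map_cons, List.map_nil, List.sum_cons,
      List.sum_nil, add_zero, zero_add]
    rcases zmod2_cases b with h | h
    · rw [h, zero_mul]
    · rw [Gap_or_last (hbu h t), two, mul_zero]
  | d4 t c =>
    simp only [Eqn.Sat, bSys, Aff.ev, Aff.lin, g, List.map_cons, List.map_nil, List.sum_cons,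
      List.sum_nil, add_zero, zero_add]
    rcases zmod2_cases (u t c) with h | h
    · rw [h, zero_mul]
    · rw [if_pos (hu t c h), two, mul_zero]
  | d5 t t' c =>
    by_cases hc : t = t'
    · simp [Eqn.Sat, bSys, Aff.ev, Aff.lin, hc]
    · simp only [Eqn.Sat, bSys, Aff.ev, Aff.lin, if_neg hc, List.map_cons, List.map_nil,
        List.sum_cons, List.sum_nil, add_zero, zero_add, g]
      exact Gap_mul_eq_zero fun h => hc (hu1 t t' c h.1 h.2)

theorem gap : S_Gap := fun _ _ => ⟨fun _ hg => Gap_sound hg, Gap_complete⟩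

end Pool.Agent.Lib.MP_ff3ed7_lc.B
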