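import Pool.Agent.Lib.MP_ff3ed7_lc.B.Spec

/-!
# Hiding and values
-/

set_option autoImplicit false

open Finset

namespace Pool.Agent.Lib.MP_ff3ed7_lc.B

theorem Hid_sol (hg : S_Gap) {n M : ℕ} {T : Finset (Fin M)} (hT : Adm n T) :
    (∀ q, ((bSys n M).eqn q).Sat (bsol n T)) ∧ ∀ c, bsol n T (.z c) = if c ∈ T then 1 else 0 := by
  have h := (hg n M).2 T hT
  unfold bsol
  rw [dif_pos h]
  exact h.choose_spec

theorem Hid_pub (hg : S_Gap) {n M μ : ℕ} {T : Finset (Fin M)} (hT : Adm n T)
    (ω : Rnd (BX n M) (BQ n M) μ) : (pat fun c => binp n T ω (.pub c)) = T := by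
  ext c
  unfold pat
  have h : binp n T ω (.pub c) = if c ∈ T then 1 else 0 := (Hid_sol hg hT).2 c
  simp only [mem_filter, mem_univ, true_and, h]
  by_cases hc : c ∈ T
  · simp [hc]
  · simp [hc]

theorem Hid_valid (hg : S_Gap) {n M μ : ℕ} {T : Finset (Fin M)} (hT : Adm n T)
    (ω : Rnd (BX n M) (BQ n M) μ) : Valid (bSys n M) (binp n T ω) :=
  valid_tab (Hid_sol hg hT).1 ω

theorem val (hg : S_Gap) : S_Val := by
  classical
  intro n M μ T ω
  constructor
  · intro hT
    have hA : Adm n T := Or.inl hT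
    unfold FB
    rw [decide_eq_false_iff_not, Hid_pub hg hA ω, not_or, not_not]
    exact ⟨Hid_valid hg hA ω, by omega⟩
  · intro hn hT
    have hA : Adm n T := Or.inr hT
    unfold FB
    rw [decide_eq_true_iff, Hid_pub hg hA ω]
    right
    omega

theorem hid (hg : S_Gap) : S_Hid := by
  classical
  intro n M μ S hS hSn g hgS
  set R : Finset (Fin M) := eraseNone (S.image TCell.pb) with hR
  have hRc : R.card ≤ S.card := (card_eraseNone_le _).trans card_image_le
  have memR : ∀ (s : BCell n M μ) (c : Fin M), s ∈ S → s.pb = some c → c ∈ R := by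
    intro s c hs hc
    rw [hR, mem_eraseNone, mem_image]
    exact ⟨s, hs, hc⟩
  refine ⟨R, fun T' => ∑ ω : Rnd (BX n M) (BQ n M) μ, g (binp n T' ω), hRc, fun T hT => ?_⟩
  have hT' : Adm n (T ∩ R) := Or.inl ((card_le_card inter_subset_right).trans (hRc.trans hSn))
  have key : ∀ T' : Finset (Fin M), ∑ ω : Rnd (BX n M) (BQ n M) μ, g (binp n T' ω) =
      ∑ σ : S → ZMod 2, g (fun c => if h : c ∈ S then σ ⟨c, h⟩ else 0) *
        Nat.card {ω : Rnd (BX n M) (BQ n M) μ //
          ∀ c ∈ S.toList.map (fun c => (c, if h : c ∈ S then σ ⟨c, h⟩ else 0)),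
            tab (bSys n M) (bsol n T') ω c.1 = c.2} := by
    intro T'
    rw [← sum_fiberwise_of_maps_to (s := (univ : Finset (Rnd (BX n M) (BQ n M) μ)))
      (t := (univ : Finset (S → ZMod 2))) (g := fun ω c => binp n T' ω c.1) (fun _ _ => mem_univ _)]
    refine sum_congr rfl fun σ _ => ?_
    have h1 : ∀ ω ∈ univ.filter (fun ω : Rnd (BX n M) (BQ n M) μ =>
        (fun c : S => binp n T' ω c.1) = σ), g (binp n T' ω) =
        g (fun c => if h : c ∈ S then σ ⟨c, h⟩ else 0) := by
      intro ω hω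
      simp only [mem_filter, mem_univ, true_and] at hω
      apply hgS
      intro c hc
      rw [dif_pos hc, ← hω]
    rw [sum_congr rfl h1, sum_const, nsmul_eq_mul, mul_comm]
    congr 2
    rw [Nat.card_eq_fintype_card, Fintype.card_subtype]
    congr 1
    ext ω
    simp only [mem_filter, mem_univ, true_and, List.mem_map, mem_toList, forall_exists_index,
      and_imp]
    constructor
    · rintro h _ c hc rfl
      simp only [dif_pos hc]
      rw [← h]
      rfl
    · intro h
      funext c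
      have := h _ c.1 c.2 rfl
      simp only [dif_pos c.2] at this
      exact this
  change _ = ∑ ω : Rnd (BX n M) (BQ n M) μ, g (binp n (T ∩ R) ω)
  rw [key T, key (T ∩ R)]
  refine sum_congr rfl fun σ _ => ?_
  congr 2
  refine local_hiding (Hid_sol hg hT).1 (Hid_sol hg hT').1 _ (by simpa using hS) ?_
  rintro ⟨c, s⟩ hc p hp
  change bsol n T (.z p) = bsol n (T ∩ R) (.z p)
  rw [(Hid_sol hg hT).2, (Hid_sol hg hT').2]
  have hcS : c ∈ S := by
    simp only [List.mem_map, mem_toList, Prod.mk.injEq] at hc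
    obtain ⟨a, ha, rfl, -⟩ := hc
    exact ha
  have hj : p ∈ R := memR c p hcS hp
  simp [hj]

end Pool.Agent.Lib.MP_ff3ed7_lc.B
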