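import Pool.Agent.Lib.MP_ff3ed7_lc.B.Spec

/-!
# The sum over the subsets of size `u` is a polynomial in `u`
-/

set_option autoImplicit false

open Finset

namespace Pool.Agent.Lib.MP_ff3ed7_lc.B

theorem Mom_exp {M : ℕ} (R : Finset (Fin M)) : ∀ φ : Finset (Fin M) → ℝ,
    ∃ c : Finset (Fin M) → ℝ, ∀ T : Finset (Fin M),
      φ (T ∩ R) = ∑ B ∈ R.powerset, if B ⊆ T then c B else 0 := by
  induction R using Finset.induction_on with
  | empty =>
    intro φ
    refine ⟨fun _ => φ ∅, fun T => ?_⟩
    simp
  | insert x R hx ih =>
    intro φ
    obtain ⟨c0, h0⟩ := ih φ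
    obtain ⟨c1, h1⟩ := ih (fun S => φ (insert x S) - φ S)
    refine ⟨fun B => if x ∈ B then c1 (B.erase x) else c0 B, fun T => ?_⟩
    rw [Finset.sum_powerset_insert hx]
    have hA : ∑ t ∈ R.powerset, (if t ⊆ T then (if x ∈ t then c1 (t.erase x) else c0 t) else 0) =
        φ (T ∩ R) := by
      rw [h0 T]
      refine Finset.sum_congr rfl fun t ht => ?_
      have hxt : x ∉ t := fun h => hx (Finset.mem_powerset.1 ht h)
      rw [if_neg hxt]
    have hB : ∑ t ∈ R.powerset, (if insert x t ⊆ T then
        (if x ∈ insert x t then c1 ((insert x t).erase x) else c0 (insert x t)) else 0) =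
        if x ∈ T then φ (insert x (T ∩ R)) - φ (T ∩ R) else 0 := by
      by_cases hxT : x ∈ T
      · rw [if_pos hxT, h1 T]
        refine Finset.sum_congr rfl fun t ht => ?_
        have hxt : x ∉ t := fun h => hx (Finset.mem_powerset.1 ht h)
        rw [if_pos (Finset.mem_insert_self x t), Finset.erase_insert hxt]
        have : (insert x t ⊆ T) ↔ t ⊆ T := by
          rw [Finset.insert_subset_iff]
          exact ⟨fun h => h.2, fun h => ⟨hxT, h⟩⟩
        simp only [this]
      · rw [if_neg hxT]
        refine Finset.sum_eq_zero fun t ht => ?_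
        rw [if_neg]
        intro h
        exact hxT (h (Finset.mem_insert_self x t))
    rw [hA, hB]
    by_cases hxT : x ∈ T
    · rw [if_pos hxT, Finset.inter_insert_of_mem hxT]
      ring
    · rw [if_neg hxT, Finset.inter_insert_of_notMem hxT, add_zero]

theorem Mom_count {M : ℕ} (B : Finset (Fin M)) {u : ℕ} (hu : u ≤ M) :
    (((powersetCard u (univ : Finset (Fin M))).filter fun T => B ⊆ T).card : ℝ) *
      (M.descFactorial B.card : ℝ) = M.choose u * (u.descFactorial B.card : ℝ) := by
  classical
  by_cases hb : B.card ≤ u
  · have hcard : ((powersetCard u (univ : Finset (Fin M))).filter fun T => B ⊆ T).card =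
        (M - B.card).choose (u - B.card) := by
      have h1 : (powersetCard (u - B.card) ((univ : Finset (Fin M)) \ B)).card =
          (M - B.card).choose (u - B.card) := by
        rw [Finset.card_powersetCard, Finset.card_univ_diff, Fintype.card_fin]
      rw [← h1]
      refine Finset.card_nbij' (fun T => T \ B) (fun S => S ∪ B) ?_ ?_ ?_ ?_
      · intro T hT
        simp only [Finset.coe_filter, Finset.mem_powersetCard, Set.mem_setOf_eq] at hT
        simp only [Finset.mem_coe, Finset.mem_powersetCard]
        refine ⟨Finset.sdiff_subset_sdiff hT.1.1 (Finset.Subset.refl _), ?_⟩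
        rw [Finset.card_sdiff_of_subset hT.2, hT.1.2]
      · intro S hS
        simp only [Finset.mem_coe, Finset.mem_powersetCard] at hS
        simp only [Finset.coe_filter, Finset.mem_powersetCard, Set.mem_setOf_eq]
        refine ⟨⟨Finset.subset_univ _, ?_⟩, Finset.subset_union_right⟩
        have hd : Disjoint S B := by
          rw [Finset.disjoint_left]
          intro a ha hb'
          exact (Finset.mem_sdiff.1 (hS.1 ha)).2 hb'
        rw [Finset.card_union_of_disjoint hd, hS.2]
        omega
      · intro T hT
        simp only [Finset.coe_filter, Finset.mem_powersetCard, Set.mem_setOf_eq] at hT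
        exact Finset.sdiff_union_of_subset hT.2
      · intro S hS
        simp only [Finset.mem_coe, Finset.mem_powersetCard] at hS
        ext a
        simp only [Finset.mem_sdiff, Finset.mem_union]
        constructor
        · rintro ⟨h | h, h'⟩
          · exact h
          · exact absurd h h'
        · intro h
          exact ⟨Or.inl h, (Finset.mem_sdiff.1 (hS.1 h)).2⟩
    rw [hcard]
    have h2 := Nat.choose_mul (n := M) (k := u) hb
    have h3 : M.descFactorial B.card = B.card.factorial * M.choose B.card :=
      Nat.descFactorial_eq_factorial_mul_choose M B.card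
    have h4 : u.descFactorial B.card = B.card.factorial * u.choose B.card :=
      Nat.descFactorial_eq_factorial_mul_choose u B.card
    rw [h3, h4]
    have h5 : (M.choose u : ℝ) * (u.choose B.card : ℝ) =
        (M.choose B.card : ℝ) * ((M - B.card).choose (u - B.card) : ℝ) := by
      exact_mod_cast h2
    push_cast
    linear_combination -(B.card.factorial : ℝ) * h5
  · push Not at hb
    have h0 : ((powersetCard u (univ : Finset (Fin M))).filter fun T => B ⊆ T) = ∅ := by
      rw [Finset.filter_eq_empty_iff]
      intro T hT hBT
      have := Finset.card_le_card hBT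
      rw [(Finset.mem_powersetCard.1 hT).2] at this
      omega
    rw [h0, Nat.descFactorial_of_lt hb]
    simp

theorem mom : S_Mom := by
  intro M R φ
  classical
  obtain ⟨c, hc⟩ := Mom_exp R φ
  refine ⟨∑ B ∈ R.powerset, Polynomial.C (c B / (M.descFactorial B.card : ℝ)) *
    descPochhammer ℝ B.card, ?_, ?_⟩
  · refine Polynomial.natDegree_sum_le_of_forall_le _ _ fun B hB => ?_
    refine (Polynomial.natDegree_C_mul_le _ _).trans ?_
    rw [descPochhammer_natDegree]
    exact Finset.card_le_card (Finset.mem_powerset.1 hB)
  · intro u hu
    rw [Polynomial.eval_finset_sum, Finset.mul_sum]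
    simp only [hc]
    rw [Finset.sum_comm]
    refine Finset.sum_congr rfl fun B _ => ?_
    rw [Polynomial.eval_mul, Polynomial.eval_C, descPochhammer_eval_eq_descFactorial]
    rw [← Finset.sum_filter, Finset.sum_const, nsmul_eq_mul]
    have hM : (M.descFactorial B.card : ℝ) ≠ 0 := by
      have : M.descFactorial B.card ≠ 0 := by
        rw [Ne, Nat.descFactorial_eq_zero_iff_lt]
        have := Finset.card_le_univ B
        rw [Fintype.card_fin] at this
        omega
      exact_mod_cast this
    have h := Mom_count B hu
    field_simp
    linear_combination c B * h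

end Pool.Agent.Lib.MP_ff3ed7_lc.B
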