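import Pool.Agent.Lib.MP_ff3ed7_lc.B.Spec

/-!
# The product formula for the squares
-/

set_option autoImplicit false

open Finset

namespace Pool.Agent.Lib.MP_ff3ed7_lc.B

/-- factorial inequality -/
theorem Prd_fact (m : ℕ) : ∀ k : ℕ, (m + k).factorial ^ 2 ≤ k.factorial * (2 * m + k).factorial := by
  induction m with
  | zero => intro k; simp [sq]
  | succ m ih =>
    intro k
    have h1 := ih (k + 1)
    have e1 : m + 1 + k = m + (k + 1) := by ring
    have e2 : 2 * (m + 1) + k = (2 * m + (k + 1)) + 1 := by ring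
    rw [e1, e2, Nat.factorial_succ (2 * m + (k + 1))]
    refine h1.trans ?_
    rw [Nat.factorial_succ k]
    have : k + 1 ≤ 2 * m + (k + 1) + 1 := by omega
    calc (k + 1) * k.factorial * (2 * m + (k + 1)).factorial
        = (k + 1) * (k.factorial * (2 * m + (k + 1)).factorial) := by ring
      _ ≤ (2 * m + (k + 1) + 1) * (k.factorial * (2 * m + (k + 1)).factorial) :=
          Nat.mul_le_mul_right _ this
      _ = _ := by ring

/-- the lower part -/
theorem Prd_low (m : ℕ) : ∀ j : ℕ, j < m →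
    ∏ k ∈ Icc 1 j, ((k : ℝ) ^ 2 / |(k : ℝ) ^ 2 - (m : ℝ) ^ 2|) =
    (j.factorial : ℝ) ^ 2 * ((m - 1 - j).factorial : ℝ) * (m.factorial : ℝ) /
      (((m - 1).factorial : ℝ) * ((m + j).factorial : ℝ)) := by
  intro j
  induction j with
  | zero =>
    intro h
    have h1 : ((m - 1).factorial : ℝ) ≠ 0 := by positivity
    have h2 : (m.factorial : ℝ) ≠ 0 := by positivity
    simp only [Nat.sub_zero, Nat.add_zero, Nat.factorial_zero]
    rw [show Icc 1 0 = (∅ : Finset ℕ) from rfl, prod_empty]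
    field_simp
    norm_num
  | succ j ih =>
    intro h
    have hj := ih (by omega)
    rw [Finset.prod_Icc_succ_top (by omega), hj]
    obtain ⟨i, rfl⟩ : ∃ i, m = j + 1 + 1 + i := ⟨m - (j + 1 + 1), by omega⟩
    have e1 : j + 1 + 1 + i - 1 - j = i + 1 := by omega
    have e2 : j + 1 + 1 + i - 1 - (j + 1) = i := by omega
    have e3 : j + 1 + 1 + i + (j + 1) = (j + 1 + 1 + i + j) + 1 := by omega
    rw [e1, e2, e3, Nat.factorial_succ i, Nat.factorial_succ j,
      Nat.factorial_succ (j + 1 + 1 + i + j)]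
    have habs : |((j + 1 : ℕ) : ℝ) ^ 2 - ((j + 1 + 1 + i : ℕ) : ℝ) ^ 2| =
        ((i : ℝ) + 1) * (((j + 1 + 1 + i + j + 1 : ℕ)) : ℝ) := by
      rw [abs_sub_comm, abs_of_nonneg]
      · push_cast; ring
      · push_cast
        have : (0 : ℝ) ≤ i := Nat.cast_nonneg i
        have : (0 : ℝ) ≤ j := Nat.cast_nonneg j
        nlinarith
    rw [habs]
    have h1 : ((j + 1 + 1 + i - 1).factorial : ℝ) ≠ 0 := by positivity
    have h2 : ((j + 1 + 1 + i + j).factorial : ℝ) ≠ 0 := by positivity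
    have h3 : (((j + 1 + 1 + i + j + 1 : ℕ)) : ℝ) ≠ 0 := by positivity
    have h4 : ((i : ℝ) + 1) ≠ 0 := by positivity
    simp only [Nat.cast_mul]
    rw [show (((i + 1 : ℕ)) : ℝ) = (i : ℝ) + 1 by push_cast; ring]
    field_simp

/-- the whole product -/
theorem Prd_all (m : ℕ) (hm : 1 ≤ m) : ∀ k : ℕ,
    ∏ m' ∈ (Icc 1 (m + k)).erase m, ((m' : ℝ) ^ 2 / |(m' : ℝ) ^ 2 - (m : ℝ) ^ 2|) =
    2 * ((m + k).factorial : ℝ) ^ 2 / ((k.factorial : ℝ) * ((2 * m + k).factorial : ℝ)) := by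
  intro k
  induction k with
  | zero =>
    obtain ⟨j, rfl⟩ : ∃ j, m = j + 1 := ⟨m - 1, by omega⟩
    have hs : (Icc 1 (j + 1 + 0)).erase (j + 1) = Icc 1 j := by
      ext x; simp only [mem_erase, mem_Icc]; omega
    rw [hs, Prd_low (j + 1) j (by omega)]
    have e1 : j + 1 - 1 - j = 0 := by omega
    have e2 : j + 1 - 1 = j := by omega
    have e3 : 2 * (j + 1) + 0 = (j + 1 + j) + 1 := by omega
    rw [e1, e2, e3, Nat.factorial_succ (j + 1 + j), Nat.add_zero, Nat.factorial_succ j]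
    have h1 : (j.factorial : ℝ) ≠ 0 := by positivity
    have h2 : ((j + 1 + j).factorial : ℝ) ≠ 0 := by positivity
    have h3 : ((j + 1 + j + 1 : ℕ) : ℝ) ≠ 0 := by positivity
    simp only [Nat.cast_mul, Nat.factorial_zero, Nat.cast_one]
    rw [show ((j + 1 + j + 1 : ℕ) : ℝ) = 2 * ((j : ℝ) + 1) by push_cast; ring] at *
    rw [show ((j + 1 : ℕ) : ℝ) = (j : ℝ) + 1 by push_cast; ring]
    have h4 : ((j : ℝ) + 1) ≠ 0 := by positivity
    field_simp
  | succ k ih =>
    have hs : (Icc 1 (m + (k + 1))).erase m = insert (m + (k + 1)) ((Icc 1 (m + k)).erase m) := by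
      ext x; simp only [mem_erase, mem_Icc, mem_insert]; omega
    rw [hs, prod_insert (by simp only [mem_erase, mem_Icc]; omega), ih]
    have habs : |((m + (k + 1) : ℕ) : ℝ) ^ 2 - (m : ℝ) ^ 2| =
        ((k : ℝ) + 1) * ((2 * m + k + 1 : ℕ) : ℝ) := by
      rw [abs_of_nonneg]
      · push_cast; ring
      · push_cast
        have : (0 : ℝ) ≤ k := Nat.cast_nonneg k
        have : (0 : ℝ) ≤ m := Nat.cast_nonneg m
        nlinarith
    rw [habs]
    have e1 : m + (k + 1) = (m + k) + 1 := by omega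
    have e2 : 2 * m + (k + 1) = (2 * m + k) + 1 := by omega
    rw [e1, e2, Nat.factorial_succ (m + k), Nat.factorial_succ k, Nat.factorial_succ (2 * m + k)]
    have h1 : (k.factorial : ℝ) ≠ 0 := by positivity
    have h2 : ((2 * m + k).factorial : ℝ) ≠ 0 := by positivity
    have h3 : ((2 * m + k + 1 : ℕ) : ℝ) ≠ 0 := by positivity
    have h4 : ((k : ℝ) + 1) ≠ 0 := by positivity
    simp only [Nat.cast_mul]
    rw [show ((k + 1 : ℕ) : ℝ) = (k : ℝ) + 1 by push_cast; ring]
    field_simp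

theorem prd : S_Prd := by
  intro D m h1 h2
  obtain ⟨k, rfl⟩ : ∃ k, D = m + k := ⟨D - m, by omega⟩
  rw [Prd_all m h1 k]
  have hpos : (0 : ℝ) < (k.factorial : ℝ) * ((2 * m + k).factorial : ℝ) := by positivity
  rw [div_le_iff₀ hpos]
  have h := Prd_fact m k
  have h' : ((m + k).factorial : ℝ) ^ 2 ≤ (k.factorial : ℝ) * ((2 * m + k).factorial : ℝ) := by
    exact_mod_cast h
  linarith

end Pool.Agent.Lib.MP_ff3ed7_lc.B
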