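import Pool.Agent.Lib.MP_ff3ed7_lc.B.Spec

/-! # Quantum Merlin-Arthur protocols and signed dual objects -/

set_option autoImplicit false

open Finset

namespace Pool.Agent.Lib.MP_ff3ed7_lc.B

open Matrix

/-- Unitary matrices preserve the norm. -/
theorem QM_unitary {K : Type} [Fintype K] [DecidableEq K] {U : Matrix K K ℂ}
    (hU : U ∈ Matrix.unitaryGroup K ℂ) (v : K → ℂ) :
    ∑ k, ‖(U *ᵥ v) k‖ ^ 2 = ∑ k, ‖v k‖ ^ 2 := by
  have key : ∀ u : K → ℂ, star u ⬝ᵥ u = ((∑ i, ‖u i‖ ^ 2 : ℝ) : ℂ) := by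
    intro u
    simp only [dotProduct, Pi.star_apply, RCLike.star_def]
    push_cast
    exact Finset.sum_congr rfl fun i _ => by rw [RCLike.conj_mul]; norm_cast
  have h1 : star (U *ᵥ v) ⬝ᵥ (U *ᵥ v) = star v ⬝ᵥ v := by
    have h2 : Uᴴ * U = 1 := Matrix.mem_unitaryGroup_iff'.1 hU
    rw [Matrix.star_mulVec, ← Matrix.dotProduct_mulVec, Matrix.mulVec_mulVec, h2,
      Matrix.one_mulVec]
  rw [key, key] at h1
  exact_mod_cast h1

theorem QM_phase {ι : Type} (x : ι → Bool) (o : Option ι) : ‖phase x o‖ = 1 := by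
  cases o with
  | none => simp [phase]
  | some i =>
    simp only [phase]
    split <;> simp

/-- The states are unit vectors. -/
theorem QM_norm {ι K : Type} [Fintype K] [DecidableEq K] {U : ℕ → Matrix K K ℂ}
    (hU : ∀ t, U t ∈ Matrix.unitaryGroup K ℂ) (q : K → Option ι) (s : K → ℂ) (x : ι → Bool)
    (t : ℕ) : ∑ k, ‖qstate U q s x t k‖ ^ 2 = ∑ k, ‖s k‖ ^ 2 := by
  induction t with
  | zero => exact QM_unitary (hU 0) s
  | succ t ih =>
    rw [← ih]
    have h1 : ∀ k, qstate U q s x (t + 1) k =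
        (U (t + 1) *ᵥ fun k => phase x (q k) * qstate U q s x t k) k := fun k => rfl
    simp only [h1]
    rw [QM_unitary (hU (t + 1))]
    refine Finset.sum_congr rfl fun k _ => ?_
    rw [norm_mul, QM_phase, one_mul]

open Classical in
/-- The initial states are unit vectors. -/
theorem QM_init {Z K : Type} [Fintype Z] [Fintype K] (init : Z ↪ K) (w : Z → ℂ) :
    ∑ k, ‖∑ z, if init z = k then w z else 0‖ ^ 2 = ∑ z, ‖w z‖ ^ 2 := by
  have h1 : ∀ k, ‖∑ z, if init z = k then w z else 0‖ ^ 2 =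
      ∑ z, if init z = k then ‖w z‖ ^ 2 else 0 := by
    intro k
    by_cases h : ∃ z0, init z0 = k
    · obtain ⟨z0, rfl⟩ := h
      have h2 : ∀ z, z ≠ z0 → init z ≠ init z0 := fun z hz h => hz (init.injective h)
      rw [Finset.sum_eq_single z0 (fun z _ hz => if_neg (h2 z hz))
        (fun h => absurd (Finset.mem_univ _) h), Finset.sum_eq_single z0
        (fun z _ hz => if_neg (h2 z hz)) (fun h => absurd (Finset.mem_univ _) h), if_pos rfl,
        if_pos rfl]
    · have h2 : ∀ z, init z ≠ k := fun z hz => h ⟨z, hz⟩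
      rw [Finset.sum_eq_zero fun z _ => if_neg (h2 z), Finset.sum_eq_zero fun z _ => if_neg (h2 z)]
      simp
  rw [Finset.sum_congr rfl fun k _ => h1 k, Finset.sum_comm]
  refine Finset.sum_congr rfl fun z _ => ?_
  rw [Finset.sum_ite_eq]
  simp

/-- The numbers. -/
theorem QM_num (p : ℕ) : ¬ ((2 : ℝ) / 3) ^ (6 * (p + 1)) ≤
    22 ^ (p + 1) * (2 ^ p * (1 / 3) ^ (6 * (p + 1))) + 4 * (1 / 128) ^ (p + 1) * 2 ^ p := by
  intro h
  have e1 : ((2 : ℝ) / 3) ^ (6 * (p + 1)) = (64 / 729) ^ (p + 1) := by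
    rw [pow_mul]
    norm_num
  have e2 : (22 : ℝ) ^ (p + 1) * (2 ^ p * (1 / 3) ^ (6 * (p + 1))) =
      (64 / 729) ^ (p + 1) * ((11 / 16) ^ (p + 1) * (1 / 2)) := by
    have h1 : ((1 : ℝ) / 3) ^ (6 * (p + 1)) = (1 / 729) ^ (p + 1) := by
      rw [pow_mul]
      norm_num
    have h2 : (2 : ℝ) ^ p = 2 ^ (p + 1) * (1 / 2) := by
      rw [pow_succ]
      ring
    rw [h1, h2, ← mul_assoc ((64 / 729 : ℝ) ^ (p + 1)), ← mul_pow]
    have h3 : (64 : ℝ) / 729 * (11 / 16) = 22 * (2 * (1 / 729)) := by norm_num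
    rw [h3, mul_pow, mul_pow]
    ring
  have e3 : (4 : ℝ) * (1 / 128) ^ (p + 1) * 2 ^ p =
      (64 / 729) ^ (p + 1) * ((729 / 4096) ^ (p + 1) * 2) := by
    have h2 : (2 : ℝ) ^ p = 2 ^ (p + 1) * (1 / 2) := by
      rw [pow_succ]
      ring
    rw [h2, ← mul_assoc ((64 / 729 : ℝ) ^ (p + 1)), ← mul_pow]
    have h3 : (64 : ℝ) / 729 * (729 / 4096) = 1 / 128 * 2 := by norm_num
    rw [h3, mul_pow]
    ring
  rw [e1, e2, e3, ← mul_add] at h
  have h4 : (0 : ℝ) < (64 / 729) ^ (p + 1) := by positivity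
  have h5 : ((11 : ℝ) / 16) ^ (p + 1) ≤ 11 / 16 := by
    have := pow_le_pow_of_le_one (a := (11 / 16 : ℝ)) (by norm_num) (by norm_num)
      (Nat.succ_le_succ (Nat.zero_le p))
    simpa using this
  have h6 : ((729 : ℝ) / 4096) ^ (p + 1) ≤ 729 / 4096 := by
    have := pow_le_pow_of_le_one (a := (729 / 4096 : ℝ)) (by norm_num) (by norm_num)
      (Nat.succ_le_succ (Nat.zero_le p))
    simpa using this
  have h7 : ((11 : ℝ) / 16) ^ (p + 1) * (1 / 2) + (729 / 4096) ^ (p + 1) * 2 < 1 := by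
    linarith
  have h8 := mul_lt_mul_of_pos_left h7 h4
  rw [mul_one] at h8
  linarith

open scoped ComplexOrder in
theorem qm : S_QM := by
  intro ι _ _ f p T h hq
  obtain ⟨α, β, γ, hα, hα1, hαf, hβf, hβ, hγ, hdu⟩ := h
  obtain ⟨K, _, U, q, init, acc, hU', hyes, hno⟩ := hq
  classical
  have hU : ∀ t, U t ∈ Matrix.unitaryGroup K ℂ := by
    intro t
    have := hU' t
    rw [Matrix.mem_unitaryGroup_iff'] at this ⊢
    rw [← this]
  -- the matrix of the final states
  let A : (ι → Bool) → Matrix acc (Fin p → Bool) ℂ := fun x k z =>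
    qstate U q (fun k => if init z = k then 1 else 0) x T k
  let M : (ι → Bool) → Matrix (Fin p → Bool) (Fin p → Bool) ℂ := fun x => (A x)ᴴ * A x
  have hM : ∀ x, (M x).PosSemidef := fun x => Matrix.posSemidef_conjTranspose_mul_self (A x)
  have hquad : ∀ x (w : (Fin p → Bool) → ℂ), (star w ⬝ᵥ (M x *ᵥ w)).re =
      ∑ k ∈ acc, ‖qstate U q (fun k => ∑ z, if init z = k then w z else 0) x T k‖ ^ 2 := by
    intro x w
    have h1 : ∀ k, qstate U q (fun k => ∑ z, if init z = k then w z else 0) x T k =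
        ∑ z, w z * qstate U q (fun k => if init z = k then 1 else 0) x T k := by
      intro k
      rw [← qstate_sum]
      congr 1
      funext k'
      exact Finset.sum_congr rfl fun z _ => by rw [mul_ite, mul_one, mul_zero]
    have h2 : star w ⬝ᵥ (M x *ᵥ w) = star (A x *ᵥ w) ⬝ᵥ (A x *ᵥ w) := by
      rw [Matrix.star_mulVec, ← Matrix.dotProduct_mulVec, Matrix.mulVec_mulVec]
    have h3 : star (A x *ᵥ w) ⬝ᵥ (A x *ᵥ w) = ((∑ k : acc, ‖(A x *ᵥ w) k‖ ^ 2 : ℝ) : ℂ) := by
      simp only [dotProduct, Pi.star_apply, RCLike.star_def]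
      push_cast
      exact Finset.sum_congr rfl fun i _ => by rw [RCLike.conj_mul]; norm_cast
    rw [h2, h3, Complex.ofReal_re, ← Finset.sum_coe_sort acc]
    refine Finset.sum_congr rfl fun k _ => ?_
    rw [h1]
    congr 2
    simp only [Matrix.mulVec, dotProduct, A]
    exact Finset.sum_congr rfl fun z _ => mul_comm _ _
  -- the traces
  let P : (ι → Bool) → ℂ := fun x => ((M x) ^ (6 * (p + 1))).trace
  have hP : P ∈ J ι (12 * (p + 1) * T) := by
    have h1 : P ∈ J ι (2 * T * (6 * (p + 1))) := by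
      have : P = fun x => ∑ z, ((M x) ^ (6 * (p + 1))) z z := by
        funext x
        rfl
      rw [this]
      refine J_sum _ _ fun z _ => J_pow M (fun i j => ?_) (6 * (p + 1)) z z
      have h2 : (fun x => M x i j) = fun x => ∑ k : acc, star (A x k i) * A x k j := by
        funext x
        simp only [M, Matrix.mul_apply, Matrix.conjTranspose_apply]
      rw [h2, two_mul]
      exact J_sum _ _ fun k _ => J_mul (J_conj (J_qstate U q _ T k)) (J_qstate U q _ T k)
    have h2 : 2 * T * (6 * (p + 1)) = 12 * (p + 1) * T := by ring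
    rwa [h2] at h1
  have hdual := dual_J (α := α) (β := fun x => β x + γ x) (fun S hS g hg => by
    rw [hdu S hS g hg, ← Finset.sum_add_distrib]
    exact Finset.sum_congr rfl fun x _ => by ring) hP
  have hre := congrArg Complex.re hdual
  simp only [Complex.re_sum, Complex.re_ofReal_mul] at hre
  have hre' : ∑ x, α x * (P x).re = ∑ x, β x * (P x).re + ∑ x, γ x * (P x).re := by
    rw [hre, ← Finset.sum_add_distrib]
    exact Finset.sum_congr rfl fun x _ => by ring
  have hP0 : ∀ x, 0 ≤ (P x).re := by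
    intro x
    have h1 : P x = _ := trace_pow_eq (hM x).1 (6 * (p + 1))
    rw [h1, Complex.ofReal_re]
    exact Finset.sum_nonneg fun i _ => pow_nonneg ((hM x).eigenvalues_nonneg i) _
  have hP1 : ∀ x, (P x).re ≤ 2 ^ p := by
    intro x
    have h1 := trace_le (hM x) (6 * (p + 1)) (c := 1) fun w hw => by
      rw [hquad, ← hw, ← QM_init init w, ← QM_norm hU q _ x T]
      exact Finset.sum_le_sum_of_subset_of_nonneg (Finset.subset_univ _)
        fun k _ _ => by positivity
    simpa using h1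
  have hlow : ((2 : ℝ) / 3) ^ (6 * (p + 1)) ≤ ∑ x, α x * (P x).re := by
    calc ((2 : ℝ) / 3) ^ (6 * (p + 1)) = ∑ x, α x * ((2 : ℝ) / 3) ^ (6 * (p + 1)) := by
          rw [← Finset.sum_mul, hα1, one_mul]
      _ ≤ ∑ x, α x * (P x).re := by
          refine Finset.sum_le_sum fun x _ => ?_
          by_cases hx : α x = 0
          · rw [hx, zero_mul, zero_mul]
          · obtain ⟨w, hw1, hw2⟩ := hyes x (hαf x hx)
            refine mul_le_mul_of_nonneg_left ?_ (hα x)
            exact pow_le_trace (hM x) (6 * (p + 1)) (by norm_num) w hw1 (by rw [hquad]; exact hw2)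
  have hup : ∑ x, β x * (P x).re ≤ 22 ^ (p + 1) * (2 ^ p * ((1 : ℝ) / 3) ^ (6 * (p + 1))) := by
    calc ∑ x, β x * (P x).re ≤ ∑ x, |β x| * (2 ^ p * ((1 : ℝ) / 3) ^ (6 * (p + 1))) := by
          refine Finset.sum_le_sum fun x _ => ?_
          by_cases hx : β x = 0
          · rw [hx, zero_mul, abs_zero, zero_mul]
          · have h1 := trace_le (hM x) (6 * (p + 1)) (c := 1 / 3) fun w hw => by
              rw [hquad]
              exact hno x (hβf x hx) w hw
            have h2 : (P x).re ≤ 2 ^ p * ((1 : ℝ) / 3) ^ (6 * (p + 1)) := by simpa using h1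
            exact (mul_le_mul_of_nonneg_right (le_abs_self _) (hP0 x)).trans
              (mul_le_mul_of_nonneg_left h2 (abs_nonneg _))
      _ = (∑ x, |β x|) * (2 ^ p * ((1 : ℝ) / 3) ^ (6 * (p + 1))) := by rw [Finset.sum_mul]
      _ ≤ _ := mul_le_mul_of_nonneg_right hβ (by positivity)
  have hup2 : ∑ x, γ x * (P x).re ≤ 4 * (1 / 128) ^ (p + 1) * 2 ^ p := by
    calc ∑ x, γ x * (P x).re ≤ ∑ x, |γ x| * 2 ^ p := by
          refine Finset.sum_le_sum fun x _ => ?_
          exact (mul_le_mul_of_nonneg_right (le_abs_self _) (hP0 x)).trans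
            (mul_le_mul_of_nonneg_left (hP1 x) (abs_nonneg _))
      _ = (∑ x, |γ x|) * 2 ^ p := by rw [Finset.sum_mul]
      _ ≤ _ := mul_le_mul_of_nonneg_right hγ (by positivity)
  exact QM_num p (by linarith)

end Pool.Agent.Lib.MP_ff3ed7_lc.B
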