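import Pool.Agent.Lib.MP_ff3ed7_lc.B.Spec

/-!
# A total Boolean function in SBP and not in QMA: the signed dual object
-/

set_option autoImplicit false

open Finset

namespace Pool.Agent.Lib.MP_ff3ed7_lc.B

/-- The weight of a set. -/
private noncomputable def SD_wt {M : ℕ} (b : ℕ → ℝ) (T : Finset (Fin M)) : ℝ :=
  b T.card / M.choose T.card

private theorem SD_wt_sum {M : ℕ} (b : ℕ → ℝ) (G : Finset (Fin M) → ℝ) :
    ∑ T, SD_wt b T * G T =
      ∑ u ∈ range (M + 1), b u / M.choose u * ∑ T ∈ powersetCard u (univ : Finset (Fin M)), G T := by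
  classical
  have h1 : ∑ T : Finset (Fin M), SD_wt b T * G T =
      ∑ T ∈ (univ : Finset (Fin M)).powerset, SD_wt b T * G T := by
    rw [powerset_univ]
  rw [h1, sum_powerset, card_univ, Fintype.card_fin]
  refine sum_congr rfl fun u _ => ?_
  rw [mul_sum]
  refine sum_congr rfl fun T hT => ?_
  rw [mem_powersetCard] at hT
  unfold SD_wt
  rw [hT.2]

private theorem SD_choose_pos {M u : ℕ} (hu : u ≤ M) : (0 : ℝ) < M.choose u := by
  exact_mod_cast Nat.choose_pos hu

private theorem SD_wt_abs {M : ℕ} (b : ℕ → ℝ) :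
    ∑ T : Finset (Fin M), |SD_wt b T| = ∑ u ∈ range (M + 1), |b u| := by
  classical
  have h1 : ∀ T : Finset (Fin M), |SD_wt b T| = SD_wt (fun u => |b u|) T * 1 := by
    intro T
    unfold SD_wt
    rw [abs_div, mul_one, abs_of_nonneg (Nat.cast_nonneg (α := ℝ) (M.choose T.card))]
  rw [sum_congr rfl fun T _ => h1 T, SD_wt_sum]
  refine sum_congr rfl fun u hu => ?_
  have hu' : u ≤ M := by
    have := mem_range.mp hu
    omega
  rw [sum_const, card_powersetCard, card_univ, Fintype.card_fin, nsmul_eq_mul, mul_one,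
    div_mul_cancel₀ _ (SD_choose_pos hu').ne']

/-- The signed dual object of the total function. -/
theorem sd : S_SD := by
  classical
  intro hHid hVal hMom hWt hPrd ℓ J D hJ1 hJ2 hD
  set n := 2 ^ ℓ with hn
  have hn1 : 1 ≤ n := Nat.one_le_two_pow
  have hnM : 2 * n ≤ 512 * n ^ 3 := by
    have h1 : n ≤ n ^ 3 := Nat.le_self_pow (by norm_num) n
    omega
  obtain ⟨a, ha0, ha1, ha2, ha3⟩ := hWt hPrd n J hJ1 hJ2
  let Ω := Rnd (BX n (512 * n ^ 3)) (BQ n (512 * n ^ 3)) n
  have hΩ : (0 : ℝ) < Fintype.card Ω := by exact_mod_cast Fintype.card_pos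
  let pt : Finset (Fin (512 * n ^ 3)) → Ω → BCl n → Bool := fun T ω c => zb (binp n T ω c)
  let A : (Finset (Fin (512 * n ^ 3)) → ℝ) → (BCl n → Bool) → ℝ :=
    fun w x => ∑ T, w T * ∑ ω : Ω, if pt T ω = x then 1 / (Fintype.card Ω : ℝ) else 0
  have hsum : ∀ (w : Finset (Fin (512 * n ^ 3)) → ℝ) (g : (BCl n → Bool) → ℝ),
      ∑ x, A w x * g x = (∑ T, w T * ∑ ω : Ω, g (pt T ω)) / Fintype.card Ω := by
    intro w g
    simp only [A, sum_mul, mul_assoc, mul_sum, sum_div]
    rw [sum_comm]
    refine sum_congr rfl fun T _ => ?_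
    rw [sum_comm]
    refine sum_congr rfl fun ω _ => ?_
    rw [sum_eq_single (pt T ω)]
    · rw [if_pos rfl]
      ring
    · intro x _ hx
      rw [if_neg (Ne.symm hx)]
      ring
    · intro h
      exact absurd (mem_univ _) h
  have hA0 : ∀ (w : Finset (Fin (512 * n ^ 3)) → ℝ), (∀ T, 0 ≤ w T) → ∀ x, 0 ≤ A w x := by
    intro w hw x
    refine sum_nonneg fun T _ => mul_nonneg (hw T) (sum_nonneg fun ω _ => ?_)
    split_ifs
    · positivity
    · exact le_rfl
  have hsupp : ∀ (w : Finset (Fin (512 * n ^ 3)) → ℝ) x, A w x ≠ 0 →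
      ∃ T, w T ≠ 0 ∧ ∃ ω, pt T ω = x := by
    intro w x hx
    by_contra hcon
    push Not at hcon
    apply hx
    refine sum_eq_zero fun T _ => ?_
    by_cases h : w T = 0
    · rw [h, zero_mul]
    · rw [sum_eq_zero, mul_zero]
      intro ω _
      rw [if_neg (hcon T h ω)]
  have hfb : ∀ T ω, fB ℓ (pt T ω) = FB (binp n T ω) := by
    intro T ω
    unfold fB
    congr 1
    funext c
    exact bz_zb _
  -- the norm
  have hnorm : ∀ b : ℕ → ℝ, ∑ x, |A (SD_wt b) x| ≤ ∑ u ∈ range (512 * n ^ 3 + 1), |b u| := by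
    intro b
    have h1 : ∀ x, |A (SD_wt b) x| ≤ A (fun T => |SD_wt b T|) x * 1 := by
      intro x
      rw [mul_one]
      refine (abs_sum_le_sum_abs _ _).trans (sum_le_sum fun T _ => ?_)
      rw [abs_mul]
      refine mul_le_mul_of_nonneg_left (le_of_eq (abs_of_nonneg (sum_nonneg fun ω _ => ?_)))
        (abs_nonneg _)
      split_ifs
      · positivity
      · exact le_rfl
    refine (sum_le_sum fun x _ => h1 x).trans ?_
    rw [hsum _ fun _ => 1]
    simp only [sum_const, card_univ, nsmul_eq_mul, mul_one]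
    rw [← sum_mul, mul_div_assoc, div_self hΩ.ne', mul_one, SD_wt_abs]
  -- averages of functions of few cells
  have havg : ∀ (S : Finset (BCl n)), S.card ≤ D → ∀ g : (BCl n → Bool) → ℝ,
      (∀ x y, (∀ i ∈ S, x i = y i) → g x = g y) →
      ∃ q : Polynomial ℝ, q.natDegree ≤ n ∧ ∀ b : ℕ → ℝ, (∀ u, n < u → u < 2 * n → b u = 0) →
        ∑ x, A (SD_wt b) x * g x =
          (∑ u ∈ range (512 * n ^ 3 + 1), b u * q.eval (u : ℝ)) / Fintype.card Ω := by
    intro S hS g hg
    obtain ⟨R, φ, hR, hφ⟩ := hHid n (512 * n ^ 3) n S (hS.trans hD) (hS.trans hD)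
      (fun y => g fun c => zb (y c)) (fun x y hxy => hg _ _ fun i hi => by rw [hxy i hi])
    obtain ⟨q, hq1, hq2⟩ := hMom (512 * n ^ 3) R φ
    refine ⟨q, hq1.trans (hR.trans (hS.trans hD)), fun b hb => ?_⟩
    rw [hsum]
    congr 1
    rw [SD_wt_sum]
    refine sum_congr rfl fun u hu => ?_
    have hu' : u ≤ 512 * n ^ 3 := by
      have := mem_range.mp hu
      omega
    by_cases hbu : b u = 0
    · rw [hbu, zero_div, zero_mul, zero_mul]
    have hadm : u ≤ n ∨ 2 * n ≤ u := by
      by_contra hcon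
      push Not at hcon
      exact hbu (hb u hcon.1 hcon.2)
    have h1 : ∑ T ∈ powersetCard u (univ : Finset (Fin (512 * n ^ 3))), ∑ ω : Ω, g (pt T ω) =
        ∑ T ∈ powersetCard u (univ : Finset (Fin (512 * n ^ 3))), φ (T ∩ R) := by
      refine sum_congr rfl fun T hT => ?_
      rw [mem_powersetCard] at hT
      refine hφ T ?_
      unfold Adm
      rw [hT.2]
      exact hadm
    rw [h1, hq2 u hu', ← mul_assoc, div_mul_cancel₀ _ (SD_choose_pos hu').ne']
  -- the three weights
  let bα : ℕ → ℝ := fun u => if u = 2 * n then 1 else 0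
  let bβ : ℕ → ℝ := fun u => if u ≤ n then a u else 0
  let bγ : ℕ → ℝ := fun u => if 2 * n < u then a u else 0
  have hα0 : ∀ T : Finset (Fin (512 * n ^ 3)), 0 ≤ SD_wt bα T := by
    intro T
    unfold SD_wt
    refine div_nonneg ?_ (Nat.cast_nonneg _)
    simp only [bα]
    split_ifs <;> norm_num
  refine ⟨A (SD_wt bα), A (SD_wt bβ), A (SD_wt bγ), hA0 _ hα0, ?_, ?_, ?_, ?_, ?_, ?_⟩
  · have h1 := hsum (SD_wt bα) fun _ => 1
    simp only [mul_one, sum_const, card_univ, nsmul_eq_mul] at h1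
    rw [h1, ← sum_mul, mul_div_assoc, div_self hΩ.ne', mul_one]
    have h2 : ∀ T : Finset (Fin (512 * n ^ 3)), SD_wt bα T = |SD_wt bα T| := fun T =>
      (abs_of_nonneg (hα0 T)).symm
    rw [sum_congr rfl fun T _ => h2 T, SD_wt_abs, sum_eq_single (2 * n)]
    · simp [bα]
    · intro u _ hu
      simp [bα, hu]
    · intro h
      exact absurd (mem_range.mpr (by omega)) h
  · intro x hx
    obtain ⟨T, hT, ω, rfl⟩ := hsupp _ x hx
    rw [hfb]
    refine (hVal n (512 * n ^ 3) n T ω).2 hn1 ?_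
    by_contra hcon
    apply hT
    unfold SD_wt
    have : bα T.card = 0 := by
      simp only [bα]
      rw [if_neg (by omega)]
    rw [this, zero_div]
  · intro x hx
    obtain ⟨T, hT, ω, rfl⟩ := hsupp _ x hx
    rw [hfb]
    refine (hVal n (512 * n ^ 3) n T ω).1 ?_
    by_contra hcon
    apply hT
    unfold SD_wt
    have : bβ T.card = 0 := by
      simp only [bβ]
      rw [if_neg hcon]
    rw [this, zero_div]
  · refine (hnorm bβ).trans (le_trans (le_of_eq ?_) ha2)
    symm
    have hsub : range (n + 1) ⊆ range (512 * n ^ 3 + 1) := range_subset_range.mpr (by omega)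
    rw [← sum_subset hsub (f := fun u => |bβ u|)]
    · refine sum_congr rfl fun u hu => ?_
      simp only [bβ]
      rw [if_pos (by have := mem_range.mp hu; omega)]
    · intro u _ hu
      simp only [bβ]
      rw [if_neg (by rw [mem_range] at hu; omega), abs_zero]
  · refine (hnorm bγ).trans (le_trans (le_of_eq ?_) ha3)
    symm
    have hsub : Ioc (2 * n) (512 * n ^ 3) ⊆ range (512 * n ^ 3 + 1) := by
      intro u hu
      rw [mem_Ioc] at hu
      rw [mem_range]
      omega
    rw [← sum_subset hsub (f := fun u => |bγ u|)]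
    · refine sum_congr rfl fun u hu => ?_
      simp only [bγ]
      rw [if_pos (mem_Ioc.mp hu).1]
    · intro u hu1 hu
      simp only [bγ]
      rw [if_neg (by rw [mem_range] at hu1; rw [mem_Ioc] at hu; omega), abs_zero]
  · intro S hS g hg
    obtain ⟨q, hq1, hq2⟩ := havg S hS g hg
    rw [hq2 bα (fun u h1 h2 => by simp only [bα]; rw [if_neg (by omega)]),
      hq2 bβ (fun u h1 h2 => by simp only [bβ]; rw [if_neg (by omega)]),
      hq2 bγ (fun u h1 h2 => by simp only [bγ]; rw [if_neg (by omega)]), ← add_div]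
    congr 1
    rw [← sum_add_distrib]
    have h1 : ∑ u ∈ range (512 * n ^ 3 + 1), bα u * q.eval (u : ℝ) = q.eval (2 * n : ℝ) := by
      rw [sum_eq_single (2 * n)]
      · simp [bα]
      · intro u _ hu
        simp [bα, hu]
      · intro h
        exact absurd (mem_range.mpr (by omega)) h
    rw [h1, ha1 q hq1]
    refine sum_congr rfl fun u _ => ?_
    simp only [bβ, bγ]
    by_cases h2 : u ≤ n
    · rw [if_pos h2, if_neg (by omega)]
      ring
    · by_cases h3 : 2 * n < u
      · rw [if_neg h2, if_pos h3]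
        ring
      · rw [if_neg h2, if_neg h3, ha0 u (by omega) (by omega)]
        ring

end Pool.Agent.Lib.MP_ff3ed7_lc.B
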