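import Pool.Agent.Lib.MP_ff3ed7_lc.B.Defs

/-!
# A total Boolean function in SBP and not in QMA: statements

Every `S_X` below is to be proved as `theorem x : S_X` in its own module
`Pool/Agent/Lib/MP_ff3ed7_lc/B/X.lean` (namespace `Pool.Agent.Lib.MP_ff3ed7_lc.B`).  The proofs are
in the docstrings.  Statements which are used are hypotheses (`(h : S_Y)`), so all modules are
independent of each other.
-/

set_option autoImplicit false

open Finset

namespace Pool.Agent.Lib.MP_ff3ed7_lc.B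

/-- **Gap.** Soundness and completeness of the system `bSys n M`.

Model: `gap_sound`, `gap_complete`, `or_chain` in `MP_ff3ed7_lc/Gap.lean`.

Soundness.  Put `T = pat fun c => g (.z c)`.  By `or_chain` and `c1`, `c2`, `g (.y c (last n)) = 1`
iff there is `t` with `g (.x c t) = 1`; by `d1`, `d2`, `g (.w t (last M)) = 1` iff there is `c` with
`g (.u t c) = 1`.  If `g .b = 0`: for `c ∈ T`, `c3` gives `g (.e c) = 1` and `c4` gives
`g (.y c (last n)) = 1`, so there is `t = t(c)` with `g (.x c t) = 1`, and `c5` says that `c ↦ t(c)`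
is injective on `T`; so `T.card ≤ n`.  If `g .b = 1`: for every `t : Fin (2 * n)`, `d3` gives
`g (.w t (last M)) = 1`, so there is `c = c(t)` with `g (.u t c) = 1`; `d4` gives `c(t) ∈ T` and
`d5` says that `t ↦ c(t)` is injective; so `2 * n ≤ T.card`.

Completeness.  If `T.card ≤ n`: put `b = 0`, `z = e =` indicator of `T`, choose an injection
`T ↪ Fin n` and let `x` be its graph (zero outside `T`), `y` the partial disjunctions of `x`,
`u = 0`, `w = 0`.  If `2 * n ≤ T.card`: put `b = 1`, `z` the indicator of `T`, `e = 0`, `x = y = 0`,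
choose an injection `Fin (2 * n) ↪ T` and let `u` be its graph, `w` the partial disjunctions. -/
def S_Gap : Prop := ∀ n M : ℕ,
  (∀ g : BX n M → ZMod 2, (∀ q, ((bSys n M).eqn q).Sat g) → Adm n (pat fun c => g (.z c))) ∧
  (∀ T : Finset (Fin M), Adm n T → ∃ g : BX n M → ZMod 2, (∀ q, ((bSys n M).eqn q).Sat g) ∧
    ∀ c, g (.z c) = if c ∈ T then 1 else 0)

/-- **Up.** The `SBP` protocol.

Index set `Z := Fin M ⊕ (Defect (Fin M) (BQ n M) μ × Fin (2 * n))`, of cardinality at most `2 ^ r`;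
choose an embedding `E : Z ↪ (Fin r → Bool)`.  For the random string `ρ`: if `ρ = E (inl c)`,
accept iff the public cell `pub c` is `1`; if `ρ = E (inr (d, _))`, accept iff the local test
`d.check (bSys n M)` (`GapUpper.lean`) accepts; if `ρ` is not in the range, reject.  Depth at most
`10` by `Defect.depth_check` (every equation has at most two variables in each of its three
forms).  If `FB a = false`, then `Valid (bSys n M) a` and at most `n` public bits are one, so
(`valid_iff`) at most `n` strings `ρ` accept, and the probability is at most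
`n / 2 ^ r = (1 / 2) ^ (r - ℓ)`.  If `FB a = true`: either `Valid` fails, some test `d` accepts, and
the `2 * n` strings `E (inr (d, k))` accept; or `Valid` holds and `n < (pat _).card`, and by
`Valid.sound` (`Tab.lean`) and `S_Gap` (soundness) `2 * n ≤ (pat _).card`, so at least `2 * n`
strings accept.  In both cases the probability is at least `2 * n / 2 ^ r`. -/
def S_Up : Prop := ∀ n M μ ℓ r : ℕ, n = 2 ^ ℓ → ℓ ≤ r →
  M + Fintype.card (Defect (Fin M) (BQ n M) μ) * (2 * n) ≤ 2 ^ r →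
  HasSBP (FB (n := n) (M := M) (μ := μ)) r (r - ℓ) 10

/-- **Hid.** Functions of few cells depend only on few public bits.

Model: `hide` in `Exact.lean` (with `local_hiding` from `Tab.lean`), and `sol_sat`, `sol_z`.  By
`S_Gap` (completeness), for `Adm n T` the assignment `bsol n T` satisfies the system and
`bsol n T (.z c) = if c ∈ T then 1 else 0`.  Put `R = {c | ∃ s ∈ S, s.pb = some c}`, so
`R.card ≤ S.card`, and `φ T' = ∑ ω, g (binp n T' ω)`.  For `Adm n T` the set `T ∩ R` has at most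
`S.card ≤ n` elements, so it is admissible too, and `local_hiding` says that the cells of `S` have
the same joint distribution for `T` and for `T ∩ R`. -/
def S_Hid : Prop := ∀ (n M μ : ℕ) (S : Finset (BCell n M μ)), S.card ≤ μ → S.card ≤ n →
  ∀ g : (BCell n M μ → ZMod 2) → ℝ, (∀ x y, (∀ i ∈ S, x i = y i) → g x = g y) →
  ∃ (R : Finset (Fin M)) (φ : Finset (Fin M) → ℝ), R.card ≤ S.card ∧
    ∀ T : Finset (Fin M), Adm n T →
      ∑ ω : Rnd (BX n M) (BQ n M) μ, g (binp n T ω) = φ (T ∩ R)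

/-- **Val.** The values of the total function on the hard inputs: `valid_tab` (`Tab.lean`) and the
completeness half of `S_Gap` (the public bits of `binp n T ω` are the indicator of `T`). -/
def S_Val : Prop := ∀ (n M μ : ℕ) (T : Finset (Fin M)) (ω : Rnd (BX n M) (BQ n M) μ),
  (T.card ≤ n → FB (binp n T ω) = false) ∧
  (1 ≤ n → 2 * n ≤ T.card → FB (binp n T ω) = true)

/-- **Mom.** The sum over the sets of size `u` is a polynomial in `u`.

Möbius inversion on the subsets of `R`: `φ (T ∩ R) = ∑ B ∈ R.powerset, if B ⊆ T then c B else 0`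
with `c B = ∑ A ∈ B.powerset, (-1) ^ (B.card - A.card) * φ A` (or prove the existence of `c` by
induction on `R`).  For `B` with `b` elements, the number of `u`-subsets of `Fin M` which contain
`B` is `(M - b).choose (u - b)` if `b ≤ u` and `0` otherwise, which is
`M.choose u * (u.descFactorial b / M.descFactorial b)`; `u.descFactorial b` is the value at `u` of
`descPochhammer ℝ b`, a polynomial of degree `b`. -/
def S_Mom : Prop := ∀ (M : ℕ) (R : Finset (Fin M)) (φ : Finset (Fin M) → ℝ),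
  ∃ q : Polynomial ℝ, q.natDegree ≤ R.card ∧
    ∀ u ≤ M, ∑ T ∈ powersetCard u (univ : Finset (Fin M)), φ (T ∩ R) =
      M.choose u * q.eval (u : ℝ)

/-- **Prd.** The product formula for the squares.

`∏ m' ∈ (Icc 1 D).erase m, m' ^ 2 = D! ^ 2 / m ^ 2`, and
`∏ m' ∈ (Icc 1 D).erase m, |m' ^ 2 - m ^ 2| = ((m - 1)! (D - m)!) * ((D + m)! / (m! * (2 * m)))`, so
the product is `2 * D! ^ 2 / ((D - m)! * (D + m)!)`, and `D! ^ 2 ≤ (D - m)! * (D + m)!`
(`(2 * D).choose (D - m) ≤ (2 * D).choose D`, `Nat.choose_le_centralBinom`). -/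
def S_Prd : Prop := ∀ D m : ℕ, 1 ≤ m → m ≤ D →
  ∏ m' ∈ (Icc 1 D).erase m, ((m' : ℝ) ^ 2 / |(m' : ℝ) ^ 2 - (m : ℝ) ^ 2|) ≤ 2

/-- **Wt.** The weights: Lagrange interpolation at the point `2 * n`.

Let `s = n / J` (so `1 ≤ s`, `s * J ≤ n`, and `n ≤ 2 * s * J`), and let the nodes be `x i = s * i`
for `i < J` and `z m = 2 * n + 256 * n * m ^ 2` for `1 ≤ m ≤ n`; these are `J + n` distinct natural
numbers, `x i ≤ n`, `2 * n < z m ≤ 2 * n + 256 * n ^ 3 ≤ 512 * n ^ 3`.  A polynomial of degree at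
most `n < J + n` is given by the Lagrange formula at the nodes
(`Lagrange.eq_interpolate_of_eval_eq` or `Lagrange.eq_interpolate`, `Lagrange.interpolate`,
`Lagrange.basis`); evaluate at `2 * n` and let `a` be the value of the basis polynomial.

For `x i`: the factors `(2 n - z m) / (x i - z m)` have absolute value at most `1`, and the
factors `(2 n - x i') / (x i - x i')` have absolute value at most `2 n / (s * |i - i'|)`, so
`|a (x i)| ≤ (2 n / s) ^ (J - 1) / (i! (J - 1 - i)!)`, and the sum over `i` is at most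
`(4 n / s) ^ (J - 1) / (J - 1)! ≤ (8 J) ^ (J - 1) / (J - 1)! = 8 ^ (J - 1) * J ^ J / J! ≤
8 ^ (J - 1) * exp J ≤ 22 ^ J` (`Real.pow_div_factorial_le_exp`, `Real.exp_one_lt_d9`).

For `z m`: the factors `(2 n - x i) / (z m - x i)` are nonnegative and at most
`2 n / (256 n m ^ 2) = 1 / (128 m ^ 2)`, so their product is at most `(1 / 128) ^ J / m ^ 2`; the
factors `(2 n - z m') / (z m - z m')` have the product
`∏ m' ≠ m, m' ^ 2 / |m' ^ 2 - m ^ 2| ≤ 2` (`S_Prd`).  The sum over `m` is at most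
`2 * (1 / 128) ^ J * ∑ 1 / m ^ 2 ≤ 4 * (1 / 128) ^ J` (`∑_{m ≤ n} 1 / m ^ 2 ≤ 2 - 1 / n`). -/
def S_Wt : Prop := S_Prd → ∀ n J : ℕ, 1 ≤ J → J ≤ n → ∃ a : ℕ → ℝ,
  (∀ u, n < u → u ≤ 2 * n → a u = 0) ∧
  (∀ q : Polynomial ℝ, q.natDegree ≤ n →
    q.eval (2 * n : ℝ) = ∑ u ∈ range (512 * n ^ 3 + 1), a u * q.eval (u : ℝ)) ∧
  ∑ u ∈ range (n + 1), |a u| ≤ 22 ^ J ∧
  ∑ u ∈ Ioc (2 * n) (512 * n ^ 3), |a u| ≤ 4 * (1 / 128) ^ J

/-- **SD.** The signed dual object of the total function.

Model: `exactDual_fb` in `Exact.lean`.  Put `n = 2 ^ ℓ`, `M = 512 * n ^ 3`,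
`Ω = Rnd (BX n M) (BQ n M) n`, and for `u ≤ M` let `P u` be the distribution of
`zb ∘ binp n T ω` for a uniform `T` with `u` elements and a uniform `ω ∈ Ω`.  With the weights `a`
of `S_Wt` put `α = P (2 * n)`, `β = ∑ u ≤ n, a u • P u`, `γ = ∑ u ∈ Ioc (2 * n) M, a u • P u`.  The
supports are right by `S_Val` (`fB ℓ (zb ∘ y) = FB y` as `bz (zb a) = a`).  For a function `g` of at
most `D ≤ n` cells, `S_Hid` and `S_Mom` give a polynomial `q` of degree at most `D` such that the
average of `g` with respect to `P u` is `q.eval u / card Ω` for every `u ≤ M` with `u ≤ n` or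
`2 * n ≤ u`; now use the quadrature formula of `S_Wt`. -/
def S_SD : Prop := S_Hid → S_Val → S_Mom → S_Wt → S_Prd →
  ∀ ℓ J D : ℕ, 1 ≤ J → J ≤ 2 ^ ℓ → D ≤ 2 ^ ℓ → HasSDual (fB ℓ) J D

/-- **QM.** Quantum Merlin-Arthur protocols.

Model: `HasExactDual.qma` in `QMA.lean` (same matrices `A x`, `M x`, same `hquad`), now with
`P x = ((M x) ^ k).trace`, `k = 6 * (p + 1)`, in `J ι (2 * T * k) = J ι (12 * (p + 1) * T)`.  The
identity of `HasSDual` extends to complex functions in `J ι D` as in `dual_J`.  On the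
yes-inputs `(2 / 3) ^ k ≤ (P x).re` (`pow_le_trace`); on the no-inputs `0 ≤ (P x).re` and
`(P x).re ≤ 2 ^ p * (1 / 3) ^ k` (`trace_le`); on all inputs `0 ≤ (P x).re ≤ 2 ^ p` (`trace_le` with
`c = 1`: the quadratic form is a partial sum of `∑ k, ‖qstate … k‖ ^ 2 = 1`, the unitaries and
phases preserve the norm).  So with `J = p + 1`
`(2 / 3) ^ (6 J) ≤ 22 ^ J * 2 ^ p * (1 / 3) ^ (6 J) + 4 * (1 / 128) ^ J * 2 ^ p`; multiply by
`729 ^ J`: `64 ^ J ≤ 44 ^ J / 2 + 2 * (729 / 64) ^ J`, which is false for `J ≥ 1`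
(`44 ^ J ≤ 64 ^ J * (44 / 64)`, `(729 / 64) ^ J ≤ 64 ^ J * (729 / 4096)`). -/
def S_QM : Prop := ∀ (ι : Type) [Fintype ι] [DecidableEq ι] (f : (ι → Bool) → Bool) (p T : ℕ),
  HasSDual f (p + 1) (12 * (p + 1) * T) → ¬ HasQMA f p T

/-- **CM.** Classical Merlin-Arthur protocols, and `SBP` protocols.

(1) For a tree `t` of depth at most `q`, the function `x ↦ if t.eval x = true then 1 else 0` is in
`JR ι σ q` (`ι` with decidable equality; `σ` finite): induction on the tree: it is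
`∑ s, [x i = s] * [(next s).eval x = true]`, and `JR a * JR b ⊆ JR (a + b)`, see `J_mul` in
`QMA.lean`; there is a similar lemma in `Pattern.lean` or `ThrDeg.lean`.

(2) Put `P x = ∑ y : Fin p → Bool, (prob r fun ρ => (T y ρ).eval x = true) ^ k` with
`k = 6 * (p + 1)`, in `JR ι Bool (q * k)`.  On the yes-inputs `(2 / 3) ^ k ≤ P x`; on the no-inputs
`0 ≤ P x ≤ 2 ^ p * (1 / 3) ^ k`; on all inputs `0 ≤ P x ≤ 2 ^ p`.  The same inequality as in
`S_QM` gives a contradiction.

(3) If `f` has an `SBP` protocol with `q ≤ D` queries, then for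
`P x = prob r fun ρ => (T ρ).eval x = true`, in `JR ι Bool q`, the identity
`∑ α P = ∑ β P` of `HasExactDual` contradicts `2 * (1 / 2) ^ s ≤ P` on the support of `α` and
`P ≤ (1 / 2) ^ s` on the support of `β`. -/
def S_CM : Prop := ∀ (ι : Type) [Fintype ι] [DecidableEq ι] (f : (ι → Bool) → Bool),
  (∀ p q : ℕ, HasSDual f (p + 1) (6 * (p + 1) * q) → ¬ HasMA f p q) ∧
  (∀ r s q D : ℕ, HasExactDual f D → HasSBP f r s q → D < q)

/-- **Card.** Cardinalities; models in `TotalPP.lean` (`card_tcell`, `card_defect`, `gqEquiv`,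
`card_gq`, `card_cl_le`).  With `M = 512 * n ^ 3`:
`card (BQ n M) = M ^ 2 * n + 3 * M + M * n + 4 * n + 4 * n * M + 4 * n ^ 2 * M ≤ 270336 * n ^ 7` and it
is at least `2 ^ 18 * n ^ 7`; `card (BX n M) ≤ 2 ^ 13 * n ^ 4`. -/
def S_Card : Prop := ∀ n : ℕ, 1 ≤ n →
  2 ^ 19 * n ^ 9 ≤ Fintype.card (BCl n) ∧ Fintype.card (BCl n) ≤ 2 ^ 22 * n ^ 9 ∧
  512 * n ^ 3 + Fintype.card (Defect (Fin (512 * n ^ 3)) (BQ n (512 * n ^ 3)) n) * (2 * n) ≤
    2 ^ 24 * n ^ 10

/-- **Fin.** The total Boolean functions.  Model: `total_upp` in `TotalUPP.lean` and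
`HasMA.transfer`, `HasExactDual.equiv`.  Write similar transfer lemmas for `HasSBP` and
`HasSDual`. -/
def S_Fin : Prop := S_Up → S_SD → S_Hid → S_Val → S_Mom → S_Wt → S_Prd → S_QM → S_CM → S_Card →
  ∀ ℓ : ℕ, ∃ (N : ℕ) (f : (Fin N → Bool) → Bool),
    2 ^ (9 * ℓ + 19) ≤ N ∧ N ≤ 2 ^ (9 * ℓ + 22) ∧
    HasSBP f (10 * ℓ + 24) (9 * ℓ + 24) 10 ∧
    (∀ p q, HasMA f p q → 2 ^ ℓ < 6 * (p + 1) * (q + 1)) ∧
    ∀ p T, HasQMA f p T → 2 ^ ℓ < 12 * (p + 1) * (T + 1)

end Pool.Agent.Lib.MP_ff3ed7_lc.B
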