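import Pool.Agent.Lib.MP_ff3ed7_lc.B.Spec

/-!
# The SBP protocol
-/

set_option autoImplicit false

open Finset

namespace Pool.Agent.Lib.MP_ff3ed7_lc.B

private theorem Up_vars_le {n M : ℕ} (q : BQ n M) : ((bSys n M).eqn q).A.vars.length ≤ 2 ∧
    ((bSys n M).eqn q).B.vars.length ≤ 2 ∧ ((bSys n M).eqn q).C.vars.length ≤ 2 := by
  cases q with
  | c5 c c' t =>
    by_cases h : c = c' <;> simp [bSys, h]
  | d5 t t' c =>
    by_cases h : t = t' <;> simp [bSys, h]
  | _ => simp [bSys]

/-- The index set of the tests. -/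
private abbrev UpZ (n M μ : ℕ) : Type := Fin M ⊕ (Defect (Fin M) (BQ n M) μ × Fin (2 * n))

/-- The tests. -/
private def Up_tst {n M μ : ℕ} : UpZ n M μ → DTree (BCell n M μ) (ZMod 2)
  | .inl c => .node (.pub c) fun a => .leaf (decide (a = 1))
  | .inr d => d.1.check (bSys n M)

private theorem Up_depth {n M μ : ℕ} (z : UpZ n M μ) : (Up_tst z).DepthLE 10 := by
  cases z with
  | inl c => exact ⟨by norm_num, fun _ => trivial⟩
  | inr d => exact d.1.depth_check (bSys n M) Up_vars_le

open Classical in
/-- The protocol. -/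
private noncomputable def Up_T {n M μ r : ℕ} (E : UpZ n M μ ↪ (Fin r → Bool))
    (ρ : Fin r → Bool) : DTree (BCell n M μ) (ZMod 2) :=
  if h : ∃ z, E z = ρ then Up_tst h.choose else .leaf false

private theorem Up_T_E {n M μ r : ℕ} (E : UpZ n M μ ↪ (Fin r → Bool)) (z : UpZ n M μ) :
    Up_T E (E z) = Up_tst z := by
  have h : ∃ z', E z' = E z := ⟨z, rfl⟩
  unfold Up_T
  rw [dif_pos h, E.injective h.choose_spec]

private theorem Up_T_no {n M μ r : ℕ} (E : UpZ n M μ ↪ (Fin r → Bool)) (ρ : Fin r → Bool)
    (h : ¬ ∃ z, E z = ρ) : Up_T E ρ = .leaf false := by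
  unfold Up_T
  rw [dif_neg h]

open Classical in
/-- The accepting tests. -/
private noncomputable def Up_acc {n M μ : ℕ} [Fintype (UpZ n M μ)] (x : BCell n M μ → ZMod 2) :
    Finset (UpZ n M μ) := univ.filter fun z => (Up_tst z).eval x = true

private theorem Up_prob {n M μ r : ℕ} [Fintype (UpZ n M μ)] (E : UpZ n M μ ↪ (Fin r → Bool))
    (x : BCell n M μ → ZMod 2) :
    prob r (fun ρ => (Up_T E ρ).eval x = true) = ((Up_acc x).card : ℝ) / 2 ^ r := by
  classical
  unfold prob
  congr 2
  rw [Nat.card_eq_fintype_card, Fintype.card_subtype, ← card_map E]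
  congr 1
  ext ρ
  simp only [mem_filter, mem_univ, true_and, mem_map, Up_acc]
  constructor
  · intro h
    by_cases h' : ∃ z, E z = ρ
    · obtain ⟨z, rfl⟩ := h'
      rw [Up_T_E] at h
      exact ⟨z, h, rfl⟩
    · rw [Up_T_no E ρ h'] at h
      exact absurd h (by simp [DTree.eval])
  · rintro ⟨z, hz, rfl⟩
    rw [Up_T_E]
    exact hz

private theorem Up_mem {n M μ : ℕ} [Fintype (UpZ n M μ)] (x : BCell n M μ → ZMod 2)
    (z : UpZ n M μ) : z ∈ Up_acc x ↔ (Up_tst z).eval x = true := by
  unfold Up_acc
  rw [mem_filter]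
  exact ⟨fun h => h.2, fun h => ⟨mem_univ _, h⟩⟩

private theorem Up_mem_inl {n M μ : ℕ} [Fintype (UpZ n M μ)] (x : BCell n M μ → ZMod 2)
    (c : Fin M) : (Sum.inl c : UpZ n M μ) ∈ Up_acc x ↔ c ∈ pat fun c => x (.pub c) := by
  rw [Up_mem]
  unfold pat
  rw [mem_filter]
  change decide (x (.pub c) = 1) = true ↔ c ∈ univ ∧ x (.pub c) = 1
  simp

private theorem Up_mem_inr {n M μ : ℕ} [Fintype (UpZ n M μ)] (x : BCell n M μ → ZMod 2)
    (d : Defect (Fin M) (BQ n M) μ × Fin (2 * n)) : (Sum.inr d : UpZ n M μ) ∈ Up_acc x ↔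
      (d.1.check (bSys n M)).eval x = true := Up_mem x _

theorem up (hg : S_Gap) : S_Up := by
  classical
  intro n M μ ℓ r hn hℓ hcard
  have hle : Fintype.card (UpZ n M μ) ≤ Fintype.card (Fin r → Bool) := by
    rw [Fintype.card_sum, Fintype.card_prod, Fintype.card_fin, Fintype.card_fin]
    simpa using hcard
  obtain ⟨E⟩ := Function.Embedding.nonempty_of_card_le hle
  have h2 : (0 : ℝ) < 2 ^ r := by positivity
  have hpow : (1 / 2 : ℝ) ^ (r - ℓ) = n / 2 ^ r := by
    have e1 : (2 : ℝ) ^ r = 2 ^ (r - ℓ) * 2 ^ ℓ := by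
      rw [← pow_add, Nat.sub_add_cancel hℓ]
    rw [hn, e1, one_div, inv_pow]
    push_cast
    field_simp
  refine ⟨Up_T E, fun ρ => ?_, fun x hx => ?_, fun x hx => ?_⟩
  · by_cases h : ∃ z, E z = ρ
    · obtain ⟨z, rfl⟩ := h
      rw [Up_T_E]
      exact Up_depth z
    · rw [Up_T_no E ρ h]
      trivial
  · rw [Up_prob, hpow]
    have key : 2 * n ≤ (Up_acc x).card := by
      by_cases hV : Valid (bSys n M) x
      · unfold FB at hx
        rw [decide_eq_true_eq] at hx
        have h3 : n < (pat fun c => x (.pub c)).card := by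
          rcases hx with h | h
          · exact absurd hV h
          · exact h
        obtain ⟨s1, s2⟩ := hV.sound
        have h4 := (hg n M).1 (fun y => ∑ i, x (.sh y i)) s1
        have h5 : (pat fun c => (fun y => ∑ i, x (.sh y i)) (.z c : BX n M)) =
            pat fun c => x (.pub c) := by
          congr 1
          funext c
          exact (s2 c).symm
        rw [h5] at h4
        have h6 : 2 * n ≤ (pat fun c => x (.pub c)).card := by
          rcases h4 with h | h
          · omega
          · exact h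
        refine h6.trans ?_
        rw [← card_map (Function.Embedding.inl : Fin M ↪ UpZ n M μ)]
        refine card_le_card ?_
        intro z hz
        rw [mem_map] at hz
        obtain ⟨c, hc, rfl⟩ := hz
        exact (Up_mem_inl x c).2 hc
      · rw [valid_iff] at hV
        push Not at hV
        obtain ⟨d, hd⟩ := hV
        have hd' : (d.check (bSys n M)).eval x = true := by simpa using hd
        have h7 : (univ.image fun k : Fin (2 * n) => (Sum.inr (d, k) : UpZ n M μ)) ⊆ Up_acc x := by
          intro z hz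
          rw [mem_image] at hz
          obtain ⟨k, -, rfl⟩ := hz
          exact (Up_mem_inr x (d, k)).2 hd'
        have h8 := card_le_card h7
        rw [card_image_of_injective _ (fun a b h => by simpa using h), card_univ,
          Fintype.card_fin] at h8
        exact h8
    have key' : (2 * n : ℝ) ≤ (Up_acc x).card := by exact_mod_cast key
    rw [← mul_div_assoc]
    exact div_le_div_of_nonneg_right key' h2.le
  · rw [Up_prob, hpow]
    unfold FB at hx
    rw [decide_eq_false_iff_not] at hx
    push Not at hx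
    obtain ⟨hV, hc⟩ := hx
    have key : (Up_acc x).card ≤ n := by
      refine le_trans ?_ hc
      rw [← card_map (Function.Embedding.inl : Fin M ↪ UpZ n M μ)]
      refine card_le_card ?_
      intro z hz
      rw [mem_map]
      rcases z with c | d
      · exact ⟨c, (Up_mem_inl x c).1 hz, rfl⟩
      · have h9 := (valid_iff _ _).mp hV d.1
        rw [(Up_mem_inr x d).1 hz] at h9
        exact absurd h9 (by simp)
    have key' : ((Up_acc x).card : ℝ) ≤ n := by exact_mod_cast key
    exact div_le_div_of_nonneg_right key' h2.le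

end Pool.Agent.Lib.MP_ff3ed7_lc.B
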