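import Pool.Agent.Lib.MP_ff3ed7_lc.B.Spec

/-!
# The weights: Lagrange interpolation at the point `2 * n`
-/

set_option autoImplicit false

open Finset

namespace Pool.Agent.Lib.MP_ff3ed7_lc.B

/-- The nodes. -/
def Wt_v (n s : ℕ) : ℕ ⊕ ℕ → ℕ := Sum.elim (fun i => s * i) (fun m => 2 * n + 256 * n * m ^ 2)

/-- The index set. -/
def Wt_S (n J : ℕ) : Finset (ℕ ⊕ ℕ) := (range J).disjSum (Icc 1 n)

/-- The value of the basis polynomial. -/
noncomputable def Wt_b (n J s : ℕ) (k : ℕ ⊕ ℕ) : ℝ :=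
  ∏ l ∈ (Wt_S n J).erase k, ((2 * n : ℝ) - (Wt_v n s l : ℝ)) / ((Wt_v n s k : ℝ) - (Wt_v n s l : ℝ))

theorem Wt_inj (n J s : ℕ) (hs : 1 ≤ s) (hn : 1 ≤ n) (hsJ : s * J ≤ n) :
    Set.InjOn (fun k => ((Wt_v n s k : ℕ) : ℝ)) (Wt_S n J : Set (ℕ ⊕ ℕ)) := by
  intro k hk l hl h
  have h0 : ((Wt_v n s k : ℕ) : ℝ) = ((Wt_v n s l : ℕ) : ℝ) := h
  have h' : Wt_v n s k = Wt_v n s l := by exact_mod_cast h0
  have hk' : k ∈ Wt_S n J := hk
  have hl' : l ∈ Wt_S n J := hl
  unfold Wt_S at hk' hl'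
  rcases k with i | m <;> rcases l with i' | m'
  · simp only [Wt_v, Sum.elim_inl] at h'
    rw [Nat.eq_of_mul_eq_mul_left (by omega) h']
  · rw [Finset.inl_mem_disjSum, mem_range] at hk'
    rw [Finset.inr_mem_disjSum, mem_Icc] at hl'
    simp only [Wt_v, Sum.elim_inl, Sum.elim_inr] at h'
    have h1 : s * i ≤ s * J := Nat.mul_le_mul_left s hk'.le
    exfalso
    omega
  · rw [Finset.inl_mem_disjSum, mem_range] at hl'
    rw [Finset.inr_mem_disjSum, mem_Icc] at hk'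
    simp only [Wt_v, Sum.elim_inl, Sum.elim_inr] at h'
    have h1 : s * i' ≤ s * J := Nat.mul_le_mul_left s hl'.le
    exfalso
    omega
  · simp only [Wt_v, Sum.elim_inr] at h'
    have h1 : 256 * n * m ^ 2 = 256 * n * m' ^ 2 := by omega
    have h2 : m ^ 2 = m' ^ 2 := Nat.eq_of_mul_eq_mul_left (by omega) h1
    have h3 : m = m' := Nat.pow_left_injective (by norm_num : (2 : ℕ) ≠ 0) h2
    rw [h3]

theorem Wt_lagrange (n J s : ℕ) (hJ : 1 ≤ J)
    (hinj : Set.InjOn (fun k => ((Wt_v n s k : ℕ) : ℝ)) (Wt_S n J : Set (ℕ ⊕ ℕ)))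
    (q : Polynomial ℝ) (hq : q.natDegree ≤ n) :
    q.eval (2 * n : ℝ) = ∑ k ∈ Wt_S n J, Wt_b n J s k * q.eval ((Wt_v n s k : ℕ) : ℝ) := by
  have hcard : (Wt_S n J).card = J + n := by
    unfold Wt_S
    rw [Finset.card_disjSum, card_range, Nat.card_Icc]
    omega
  have hdeg : q.degree < (Wt_S n J).card := by
    refine lt_of_le_of_lt Polynomial.degree_le_natDegree ?_
    rw [hcard]
    exact_mod_cast (by omega : q.natDegree < J + n)
  have h := Lagrange.eq_interpolate hinj hdeg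
  have h2 := congrArg (Polynomial.eval (2 * n : ℝ)) h
  rw [h2, Lagrange.interpolate_apply, Polynomial.eval_finset_sum]
  refine sum_congr rfl fun k _ => ?_
  rw [Polynomial.eval_mul, Polynomial.eval_C, mul_comm]
  congr 1
  unfold Lagrange.basis Wt_b
  rw [Polynomial.eval_prod]
  refine prod_congr rfl fun l _ => ?_
  unfold Lagrange.basisDivisor
  simp only [Polynomial.eval_mul, Polynomial.eval_C, Polynomial.eval_sub, Polynomial.eval_X]
  rw [div_eq_mul_inv, mul_comm]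

theorem Wt_erase_inl (A B : Finset ℕ) (i : ℕ) :
    (A.disjSum B).erase (Sum.inl i) = (A.erase i).disjSum B := by
  ext x
  rcases x with x | x <;> simp

theorem Wt_erase_inr (A B : Finset ℕ) (i : ℕ) :
    (A.disjSum B).erase (Sum.inr i) = A.disjSum (B.erase i) := by
  ext x
  rcases x with x | x <;> simp

theorem Wt_fact (i r : ℕ) :
    ∏ x ∈ (range (i + 1 + r)).erase i, |(i : ℝ) - (x : ℝ)| = (i.factorial : ℝ) * (r.factorial : ℝ) := by
  set g : ℕ → ℝ := fun x => if x = i then 1 else |(i : ℝ) - (x : ℝ)| with hg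
  have h1 : ∏ x ∈ (range (i + 1 + r)).erase i, |(i : ℝ) - (x : ℝ)| =
      ∏ x ∈ range (i + 1 + r), g x := by
    have h2 : ∏ x ∈ (range (i + 1 + r)).erase i, g x = ∏ x ∈ range (i + 1 + r), g x :=
      Finset.prod_erase _ (by simp [hg])
    rw [← h2]
    refine prod_congr rfl fun x hx => ?_
    simp only [hg]
    rw [if_neg (Finset.ne_of_mem_erase hx)]
  rw [h1, prod_range_add, prod_range_succ]
  have h3 : ∏ x ∈ range i, g x = (i.factorial : ℝ) := by
    rw [← Nat.descFactorial_self, Nat.descFactorial_eq_prod_range, Nat.cast_prod]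
    refine prod_congr rfl fun x hx => ?_
    rw [mem_range] at hx
    simp only [hg]
    rw [if_neg (by omega), Nat.cast_sub hx.le, abs_of_nonneg]
    rw [sub_nonneg]
    exact_mod_cast hx.le
  have h4 : g i = 1 := by simp [hg]
  have h5 : ∏ x ∈ range r, g (i + 1 + x) = (r.factorial : ℝ) := by
    rw [← prod_range_add_one_eq_factorial, Nat.cast_prod]
    refine prod_congr rfl fun x _ => ?_
    simp only [hg]
    rw [if_neg (by omega)]
    push_cast
    rw [show (i : ℝ) - ((i : ℝ) + 1 + x) = -((x : ℝ) + 1) by ring, abs_neg, abs_of_nonneg (by positivity)]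
  rw [h3, h4, h5, mul_one]

/-- The bound for the first nodes. -/
theorem Wt_bl (n J s : ℕ) (hs : 1 ≤ s) (hn : 1 ≤ n) (hsJ : s * J ≤ n) (i : ℕ) (hi : i < J) :
    |Wt_b n J s (Sum.inl i)| ≤
      (2 * n / s : ℝ) ^ (J - 1) / ((i.factorial : ℝ) * ((J - 1 - i).factorial : ℝ)) := by
  have hsR : (0 : ℝ) < s := by exact_mod_cast hs
  have hnR : (0 : ℝ) < n := by exact_mod_cast hn
  unfold Wt_b Wt_S
  rw [Wt_erase_inl, Finset.prod_disjSum, abs_mul, Finset.abs_prod, Finset.abs_prod]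
  have hsi : s * i ≤ n := (Nat.mul_le_mul_left s hi.le).trans hsJ
  have hsiR : (s : ℝ) * i ≤ n := by exact_mod_cast hsi
  have h2 : ∏ m ∈ Icc 1 n, |((2 * n : ℝ) - (Wt_v n s (Sum.inr m) : ℝ)) /
      ((Wt_v n s (Sum.inl i) : ℝ) - (Wt_v n s (Sum.inr m) : ℝ))| ≤ 1 := by
    refine prod_le_one (fun m _ => abs_nonneg _) fun m _ => ?_
    simp only [Wt_v, Sum.elim_inl, Sum.elim_inr]
    push_cast
    have h3 : (0 : ℝ) ≤ 256 * n * (m : ℝ) ^ 2 := by positivity
    rw [abs_div, abs_sub_comm, abs_sub_comm ((s : ℝ) * i),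
      abs_of_nonneg (by linarith : (0 : ℝ) ≤ 2 * n + 256 * n * (m : ℝ) ^ 2 - 2 * n),
      abs_of_nonneg (by linarith : (0 : ℝ) ≤ 2 * n + 256 * n * (m : ℝ) ^ 2 - s * i)]
    exact div_le_one_of_le₀ (by linarith) (by linarith)
  have h3 : ∏ i' ∈ (range J).erase i, |((2 * n : ℝ) - (Wt_v n s (Sum.inl i') : ℝ)) /
      ((Wt_v n s (Sum.inl i) : ℝ) - (Wt_v n s (Sum.inl i') : ℝ))| ≤
      ∏ i' ∈ (range J).erase i, ((2 * n / s : ℝ) / |(i : ℝ) - (i' : ℝ)|) := by
    refine prod_le_prod (fun _ _ => abs_nonneg _) fun i' hi' => ?_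
    rw [mem_erase, mem_range] at hi'
    simp only [Wt_v, Sum.elim_inl]
    push_cast
    have h4 : (s : ℝ) * i' ≤ n := by
      exact_mod_cast (Nat.mul_le_mul_left s hi'.2.le).trans hsJ
    have h5 : (0 : ℝ) ≤ (s : ℝ) * i' := by positivity
    have h6 : (i : ℝ) - i' ≠ 0 := by
      rw [sub_ne_zero]
      exact_mod_cast hi'.1.symm
    have h7 : (0 : ℝ) < |(i : ℝ) - i'| := abs_pos.mpr h6
    rw [abs_div, ← mul_sub, abs_mul, abs_of_pos hsR, abs_of_nonneg (by linarith), div_div]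
    gcongr
    linarith
  have h4 : ∏ i' ∈ (range J).erase i, ((2 * n / s : ℝ) / |(i : ℝ) - (i' : ℝ)|) =
      (2 * n / s : ℝ) ^ (J - 1) / ((i.factorial : ℝ) * ((J - 1 - i).factorial : ℝ)) := by
    rw [prod_div_distrib, prod_const, card_erase_of_mem (mem_range.mpr hi), card_range]
    congr 1
    have h5 := Wt_fact i (J - 1 - i)
    rw [show i + 1 + (J - 1 - i) = J by omega] at h5
    exact h5
  calc _ ≤ (∏ i' ∈ (range J).erase i, ((2 * n / s : ℝ) / |(i : ℝ) - (i' : ℝ)|)) * 1 := by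
        refine mul_le_mul h3 h2 (prod_nonneg fun _ _ => abs_nonneg _) (prod_nonneg fun _ _ => by positivity)
    _ = _ := by rw [mul_one, h4]

/-- The sum of the bounds for the first nodes. -/
theorem Wt_sl (n J s : ℕ) (hs : 1 ≤ s) (hn : 1 ≤ n) (hJ : 1 ≤ J) (hsJ : n ≤ 2 * (s * J)) :
    ∑ i ∈ range J, (2 * n / s : ℝ) ^ (J - 1) / ((i.factorial : ℝ) * ((J - 1 - i).factorial : ℝ)) ≤
      22 ^ J := by
  obtain ⟨K, rfl⟩ : ∃ K, J = K + 1 := ⟨J - 1, by omega⟩
  simp only [Nat.add_sub_cancel]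
  have hsR : (0 : ℝ) < s := by exact_mod_cast hs
  have hK : (0 : ℝ) < (K.factorial : ℝ) := by exact_mod_cast K.factorial_pos
  have h1 : ∑ i ∈ range (K + 1), (2 * n / s : ℝ) ^ K / ((i.factorial : ℝ) * ((K - i).factorial : ℝ)) =
      (2 * n / s : ℝ) ^ K / (K.factorial : ℝ) * 2 ^ K := by
    have h2 : ((2 : ℝ) ^ K) = ∑ i ∈ range (K + 1), (K.choose i : ℝ) := by
      have := Nat.sum_range_choose K
      exact_mod_cast this.symm
    rw [h2, mul_sum]
    refine sum_congr rfl fun i hi => ?_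
    rw [mem_range] at hi
    rw [Nat.cast_choose ℝ (by omega : i ≤ K)]
    field_simp
  rw [h1]
  have h3 : (2 * n / s : ℝ) ≤ 4 * (K + 1 : ℕ) := by
    rw [div_le_iff₀ hsR]
    have : (n : ℝ) ≤ 2 * (s * (K + 1 : ℕ)) := by exact_mod_cast hsJ
    nlinarith
  have h4 : ((K + 1 : ℕ) : ℝ) ^ (K + 1) / ((K + 1).factorial : ℝ) ≤ Real.exp (K + 1 : ℕ) :=
    Real.pow_div_factorial_le_exp _ (Nat.cast_nonneg _) _
  have h5 : Real.exp (K + 1 : ℕ) ≤ (2.7182818286 : ℝ) ^ (K + 1) := by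
    rw [← mul_one ((K + 1 : ℕ) : ℝ), Real.exp_nat_mul]
    exact pow_le_pow_left₀ (Real.exp_pos _).le Real.exp_one_lt_d9.le _
  calc (2 * n / s : ℝ) ^ K / (K.factorial : ℝ) * 2 ^ K
      ≤ (4 * (K + 1 : ℕ)) ^ K / (K.factorial : ℝ) * 2 ^ K := by gcongr
    _ = 8 ^ K * (((K + 1 : ℕ) : ℝ) ^ (K + 1) / ((K + 1).factorial : ℝ)) := by
        rw [Nat.factorial_succ]
        push_cast
        rw [mul_pow, show (8 : ℝ) = 4 * 2 by norm_num, mul_pow, pow_succ ((K : ℝ) + 1)]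
        field_simp
    _ ≤ 8 ^ (K + 1) * (2.7182818286 : ℝ) ^ (K + 1) := by
        have h6 : (8 : ℝ) ^ K ≤ 8 ^ (K + 1) := pow_le_pow_right₀ (by norm_num) (by omega)
        exact mul_le_mul h6 (h4.trans h5) (by positivity) (by positivity)
    _ = (8 * 2.7182818286 : ℝ) ^ (K + 1) := (mul_pow _ _ _).symm
    _ ≤ 22 ^ (K + 1) := pow_le_pow_left₀ (by norm_num) (by norm_num) _

/-- The bound for the other nodes. -/
theorem Wt_br (hP : S_Prd) (n J s : ℕ) (hJ : 1 ≤ J) (hn : 1 ≤ n) (hsJ : s * J ≤ n) (m : ℕ)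
    (hm1 : 1 ≤ m) (hmn : m ≤ n) :
    |Wt_b n J s (Sum.inr m)| ≤ 2 * (1 / 128 : ℝ) ^ J * ((m : ℝ) ^ 2)⁻¹ := by
  have hnR : (0 : ℝ) < n := by exact_mod_cast hn
  have hmR : (1 : ℝ) ≤ m := by exact_mod_cast hm1
  unfold Wt_b Wt_S
  rw [Wt_erase_inr, Finset.prod_disjSum, abs_mul, Finset.abs_prod, Finset.abs_prod]
  have h1 : ∏ i ∈ range J, |((2 * n : ℝ) - (Wt_v n s (Sum.inl i) : ℝ)) /
      ((Wt_v n s (Sum.inr m) : ℝ) - (Wt_v n s (Sum.inl i) : ℝ))| ≤
      (1 / 128 : ℝ) ^ J * ((m : ℝ) ^ 2)⁻¹ := by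
    have h2 : ∏ i ∈ range J, |((2 * n : ℝ) - (Wt_v n s (Sum.inl i) : ℝ)) /
        ((Wt_v n s (Sum.inr m) : ℝ) - (Wt_v n s (Sum.inl i) : ℝ))| ≤
        ∏ _i ∈ range J, ((1 / 128 : ℝ) * ((m : ℝ) ^ 2)⁻¹) := by
      refine prod_le_prod (fun _ _ => abs_nonneg _) fun i hi => ?_
      rw [mem_range] at hi
      simp only [Wt_v, Sum.elim_inl, Sum.elim_inr]
      push_cast
      have h4 : (s : ℝ) * i ≤ n := by
        exact_mod_cast (Nat.mul_le_mul_left s hi.le).trans hsJ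
      have h5 : (0 : ℝ) ≤ (s : ℝ) * i := by positivity
      have h6 : (0 : ℝ) < 256 * n * (m : ℝ) ^ 2 := by positivity
      rw [abs_of_nonneg (div_nonneg (by linarith) (by linarith)), div_le_iff₀ (by linarith)]
      have h7 : (1 / 128 : ℝ) * ((m : ℝ) ^ 2)⁻¹ * (256 * n * (m : ℝ) ^ 2) = 2 * n := by
        field_simp
        norm_num
      have h8 : (0 : ℝ) ≤ (1 / 128 : ℝ) * ((m : ℝ) ^ 2)⁻¹ := by positivity
      nlinarith
    refine h2.trans ?_
    rw [prod_const, card_range, mul_pow]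
    refine mul_le_mul_of_nonneg_left ?_ (by positivity)
    have h9 : ((m : ℝ) ^ 2)⁻¹ ≤ 1 := inv_le_one_of_one_le₀ (one_le_pow₀ hmR)
    exact pow_le_of_le_one (by positivity) h9 (by omega)
  have h3 : ∏ m' ∈ (Icc 1 n).erase m, |((2 * n : ℝ) - (Wt_v n s (Sum.inr m') : ℝ)) /
      ((Wt_v n s (Sum.inr m) : ℝ) - (Wt_v n s (Sum.inr m') : ℝ))| ≤ 2 := by
    refine le_trans (le_of_eq ?_) (hP n m hm1 hmn)
    refine prod_congr rfl fun m' _ => ?_
    simp only [Wt_v, Sum.elim_inr]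
    push_cast
    rw [show (2 * n : ℝ) - (2 * n + 256 * n * (m' : ℝ) ^ 2) = -(256 * n * (m' : ℝ) ^ 2) by ring,
      show (2 * n + 256 * n * (m : ℝ) ^ 2 : ℝ) - (2 * n + 256 * n * (m' : ℝ) ^ 2) =
        -(256 * n * ((m' : ℝ) ^ 2 - (m : ℝ) ^ 2)) by ring, neg_div_neg_eq,
      mul_div_mul_left _ _ (by positivity : (256 * n : ℝ) ≠ 0), abs_div,
      abs_of_nonneg (by positivity : (0 : ℝ) ≤ (m' : ℝ) ^ 2)]
  calc _ ≤ ((1 / 128 : ℝ) ^ J * ((m : ℝ) ^ 2)⁻¹) * 2 :=
        mul_le_mul h1 h3 (prod_nonneg fun _ _ => abs_nonneg _) (by positivity)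
    _ = _ := by ring

theorem wt : S_Wt := by
  intro hP n J hJ hJn
  have hn : 1 ≤ n := hJ.trans hJn
  set s : ℕ := n / J with hs
  have hs1 : 1 ≤ s := (Nat.one_le_div_iff (by omega)).mpr hJn
  have hsJ : s * J ≤ n := Nat.div_mul_le_self n J
  have hsJ2 : n ≤ 2 * (s * J) := by
    have h1 := Nat.lt_div_mul_add (a := n) (by omega : 0 < J)
    have h2 : J ≤ s * J := Nat.le_mul_of_pos_left J (by omega)
    rw [← hs] at h1
    omega
  have hinj := Wt_inj n J s hs1 hn hsJ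
  have hrange : ∀ k ∈ Wt_S n J, Wt_v n s k ∈ range (512 * n ^ 3 + 1) := by
    intro k hk
    rw [mem_range]
    unfold Wt_S at hk
    rcases k with i | m
    · rw [Finset.inl_mem_disjSum, mem_range] at hk
      have h1 : s * i ≤ n := (Nat.mul_le_mul_left s hk.le).trans hsJ
      have h2 : n ≤ n ^ 3 := Nat.le_self_pow (by norm_num) n
      simp only [Wt_v, Sum.elim_inl]
      omega
    · rw [Finset.inr_mem_disjSum, mem_Icc] at hk
      have h2 : n ≤ n ^ 3 := Nat.le_self_pow (by norm_num) n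
      have h3 : 256 * n * m ^ 2 ≤ 256 * n * n ^ 2 :=
        Nat.mul_le_mul_left _ (Nat.pow_le_pow_left hk.2 2)
      have h4 : 256 * n * n ^ 2 = 256 * n ^ 3 := by ring
      simp only [Wt_v, Sum.elim_inr]
      omega
  refine ⟨fun u => ∑ k ∈ Wt_S n J with Wt_v n s k = u, Wt_b n J s k, ?_, ?_, ?_, ?_⟩
  · intro u hu1 hu2
    refine sum_eq_zero fun k hk => ?_
    exfalso
    rw [mem_filter] at hk
    obtain ⟨hk, hku⟩ := hk
    unfold Wt_S at hk
    rcases k with i | m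
    · rw [Finset.inl_mem_disjSum, mem_range] at hk
      have h1 : s * i ≤ n := (Nat.mul_le_mul_left s hk.le).trans hsJ
      simp only [Wt_v, Sum.elim_inl] at hku
      omega
    · rw [Finset.inr_mem_disjSum, mem_Icc] at hk
      simp only [Wt_v, Sum.elim_inr] at hku
      have h3 : 0 < 256 * n * m ^ 2 := by
        have : 0 < m := hk.1
        positivity
      omega
  · intro q hq
    rw [Wt_lagrange n J s hJ hinj q hq, ← sum_fiberwise_of_maps_to hrange]
    refine sum_congr rfl fun u _ => ?_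
    rw [sum_mul]
    refine sum_congr rfl fun k hk => ?_
    rw [(mem_filter.mp hk).2]
  · calc ∑ u ∈ range (n + 1), |∑ k ∈ Wt_S n J with Wt_v n s k = u, Wt_b n J s k|
        ≤ ∑ u ∈ range (n + 1), ∑ k ∈ Wt_S n J with Wt_v n s k = u, |Wt_b n J s k| :=
          sum_le_sum fun u _ => abs_sum_le_sum_abs _ _
      _ = ∑ k ∈ Wt_S n J with Wt_v n s k ∈ range (n + 1), |Wt_b n J s k| :=
          sum_fiberwise_eq_sum_filter _ _ _ _
      _ ≤ ∑ i ∈ range J, |Wt_b n J s (Sum.inl i)| := by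
          rw [sum_filter]
          unfold Wt_S
          rw [Finset.sum_disjSum]
          have h1 : ∑ m ∈ Icc 1 n, (if Wt_v n s (Sum.inr m) ∈ range (n + 1) then
              |Wt_b n J s (Sum.inr m)| else 0) = 0 := by
            refine sum_eq_zero fun m _ => if_neg ?_
            rw [mem_range]
            simp only [Wt_v, Sum.elim_inr]
            omega
          have h2 : ∑ i ∈ range J, (if Wt_v n s (Sum.inl i) ∈ range (n + 1) then
              |Wt_b n J s (Sum.inl i)| else 0) ≤ ∑ i ∈ range J, |Wt_b n J s (Sum.inl i)| := by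
            refine sum_le_sum fun i _ => ?_
            split_ifs
            · exact le_rfl
            · exact abs_nonneg _
          exact (add_le_add h2 h1.le).trans (by rw [add_zero])
      _ ≤ ∑ i ∈ range J, (2 * n / s : ℝ) ^ (J - 1) /
            ((i.factorial : ℝ) * ((J - 1 - i).factorial : ℝ)) :=
          sum_le_sum fun i hi => Wt_bl n J s hs1 hn hsJ i (mem_range.mp hi)
      _ ≤ 22 ^ J := Wt_sl n J s hs1 hn hJ hsJ2
  · calc ∑ u ∈ Ioc (2 * n) (512 * n ^ 3), |∑ k ∈ Wt_S n J with Wt_v n s k = u, Wt_b n J s k|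
        ≤ ∑ u ∈ Ioc (2 * n) (512 * n ^ 3), ∑ k ∈ Wt_S n J with Wt_v n s k = u, |Wt_b n J s k| :=
          sum_le_sum fun u _ => abs_sum_le_sum_abs _ _
      _ = ∑ k ∈ Wt_S n J with Wt_v n s k ∈ Ioc (2 * n) (512 * n ^ 3), |Wt_b n J s k| :=
          sum_fiberwise_eq_sum_filter _ _ _ _
      _ ≤ ∑ m ∈ Icc 1 n, |Wt_b n J s (Sum.inr m)| := by
          rw [sum_filter]
          unfold Wt_S
          rw [Finset.sum_disjSum]
          have h1 : ∑ i ∈ range J, (if Wt_v n s (Sum.inl i) ∈ Ioc (2 * n) (512 * n ^ 3) then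
              |Wt_b n J s (Sum.inl i)| else 0) = 0 := by
            refine sum_eq_zero fun i hi => if_neg ?_
            rw [mem_range] at hi
            have h1 : s * i ≤ n := (Nat.mul_le_mul_left s hi.le).trans hsJ
            rw [mem_Ioc]
            simp only [Wt_v, Sum.elim_inl]
            omega
          have h2 : ∑ m ∈ Icc 1 n, (if Wt_v n s (Sum.inr m) ∈ Ioc (2 * n) (512 * n ^ 3) then
              |Wt_b n J s (Sum.inr m)| else 0) ≤ ∑ m ∈ Icc 1 n, |Wt_b n J s (Sum.inr m)| := by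
            refine sum_le_sum fun i _ => ?_
            split_ifs
            · exact le_rfl
            · exact abs_nonneg _
          exact (add_le_add h1.le h2).trans (by rw [zero_add])
      _ ≤ ∑ m ∈ Icc 1 n, 2 * (1 / 128 : ℝ) ^ J * ((m : ℝ) ^ 2)⁻¹ := by
          refine sum_le_sum fun m hm => ?_
          rw [mem_Icc] at hm
          exact Wt_br hP n J s hJ hn hsJ m hm.1 hm.2
      _ = 2 * (1 / 128 : ℝ) ^ J * ∑ m ∈ Icc 1 n, ((m : ℝ) ^ 2)⁻¹ := by rw [mul_sum]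
      _ ≤ 2 * (1 / 128 : ℝ) ^ J * 2 := by
          refine mul_le_mul_of_nonneg_left ?_ (by positivity)
          have h1 := sum_Ioo_inv_sq_le (α := ℝ) 0 (n + 1)
          have h2 : Ioo 0 (n + 1) = Icc 1 n := by
            ext x
            simp only [mem_Ioo, mem_Icc]
            omega
          rw [h2] at h1
          refine h1.trans ?_
          norm_num
      _ = 4 * (1 / 128 : ℝ) ^ J := by ring

end Pool.Agent.Lib.MP_ff3ed7_lc.B
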