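import Pool.Agent.Lib.MP_ff3ed7_lc.B.Gap
import Pool.Agent.Lib.MP_ff3ed7_lc.B.Up
import Pool.Agent.Lib.MP_ff3ed7_lc.B.Hid
import Pool.Agent.Lib.MP_ff3ed7_lc.B.Mom
import Pool.Agent.Lib.MP_ff3ed7_lc.B.Prd
import Pool.Agent.Lib.MP_ff3ed7_lc.B.Wt
import Pool.Agent.Lib.MP_ff3ed7_lc.B.SD
import Pool.Agent.Lib.MP_ff3ed7_lc.B.QM
import Pool.Agent.Lib.MP_ff3ed7_lc.B.CM
import Pool.Agent.Lib.MP_ff3ed7_lc.B.Card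
import Pool.Agent.Lib.MP_ff3ed7_lc.B.Fin

/-! The chain `MA ⊊ SBP ⊊ AM` for total Boolean functions. -/

set_option autoImplicit false

open Finset

namespace Pool.Agent.Lib.MP_ff3ed7_lc.B

/-- Total functions in `SBP` and not in `QMA`. -/
theorem total_sbp (ℓ : ℕ) : ∃ (N : ℕ) (f : (Fin N → Bool) → Bool),
    2 ^ (9 * ℓ + 19) ≤ N ∧ N ≤ 2 ^ (9 * ℓ + 22) ∧
    HasSBP f (10 * ℓ + 24) (9 * ℓ + 24) 10 ∧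
    (∀ p q, HasMA f p q → 2 ^ ℓ < 6 * (p + 1) * (q + 1)) ∧
    ∀ p T, HasQMA f p T → 2 ^ ℓ < 12 * (p + 1) * (T + 1) :=
  fin (up gap) sd (hid gap) (val gap) mom wt prd qm cm card ℓ

/-- Total functions in `AM` and not in `SBP`. -/
theorem total_am (ℓ : ℕ) : ∃ (N : ℕ) (f : (Fin N → Bool) → Bool),
    2 ^ (5 * ℓ + 12) ≤ N ∧ N ≤ 2 ^ (5 * ℓ + 17) ∧
    HasAM f (ℓ + 2) (5 * ℓ + 17) 10 ∧
    (∀ r s q, HasSBP f r s q → 2 ^ ℓ < 9 * q) ∧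
    (∀ D, ThrDegLE f D → 2 ^ ℓ < 9 * D) ∧
    (∀ p q, HasMA f p q → 2 ^ ℓ < (p + 2) * (q + 1)) ∧
    ∀ p T, HasQMA f p T → 2 ^ ℓ < 18 * (p + 1) * T := by
  obtain ⟨N, f, h1, h2, h3, h, -, h4, h5, h6⟩ := total_upp ℓ
  refine ⟨N, f, h1, h2, h3, ?_, h5, h4, h6⟩
  intro r s q hq
  have h7 := (cm _ f).2 r s q (2 ^ ℓ / 9) (h _ (Nat.mul_div_le _ _)) hq
  omega

end Pool.Agent.Lib.MP_ff3ed7_lc.B
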