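import Pool.Agent.Lib.MP_ff3ed7_lc.B.Total
import Pool.Agent.Lib.MP_ff3ed7_lc.B.CC
import Pool.Agent.Lib.MP_ff3ed7_lc.B.CCMA
import Pool.Agent.Lib.MP_ff3ed7_lc.U.Total

/-! The chain `MA ⊊ SBP ⊊ AM` for the communication complexity of total functions. -/

set_option autoImplicit false

open Finset

namespace Pool.Agent.Lib.MP_ff3ed7_lc.B

/-- The total functions with their dual objects. -/
theorem total_dual (ℓ : ℕ) : ∃ (N : ℕ) (f : (Fin N → Bool) → Bool),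
    2 ^ (9 * ℓ + 19) ≤ N ∧ N ≤ 2 ^ (9 * ℓ + 22) ∧
    HasSBP f (10 * ℓ + 24) (9 * ℓ + 24) 10 ∧
    ∀ J D, 1 ≤ J → J ≤ 2 ^ ℓ → D ≤ 2 ^ ℓ → HasSDual f J D := by
  obtain ⟨hc1, hc2, -⟩ := card (2 ^ ℓ) Nat.one_le_two_pow
  let e : BCl (2 ^ ℓ) ≃ Fin (Fintype.card (BCl (2 ^ ℓ))) := Fintype.equivFin _
  exact ⟨Fintype.card (BCl (2 ^ ℓ)), fun x => fB ℓ fun c => x (e c),
    le_trans (le_of_eq (by ring)) hc1, hc2.trans (le_of_eq (by ring)),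
    HasSBP.transfer (e := e) (s := id) (fun x => rfl) (hasSBP_fB (up gap) card ℓ),
    fun J D h1 h2 h3 => (sd (hid gap) (val gap) mom wt prd ℓ J D h1 h2 h3).equiv e⟩

/-- Total two-party functions with `SBP` protocols and without cheap Merlin-Arthur protocols. -/
theorem total_sbpcc (ℓ : ℕ) : ∃ (N : ℕ) (F : (Fin N → Bool) → (Fin N → Bool) → Bool),
    2 ^ (9 * ℓ + 20) ≤ N ∧ N ≤ 2 ^ (9 * ℓ + 23) ∧
    HasSBPcc F (10 * ℓ + 24) (9 * ℓ + 24) 30 ∧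
    ∀ p c, HasMAcc F p c → 2 ^ ℓ ≤ 21 * (p + 1) * (c + 1) := by
  obtain ⟨N, f, h1, h2, hsbp, hdual⟩ := total_dual ℓ
  refine ⟨N + N, lift2 f, ?_, ?_, hsbp.cc.comap pairs pairs, ?_⟩
  · rw [show 9 * ℓ + 20 = (9 * ℓ + 19) + 1 by ring, pow_succ]
    omega
  · rw [show 9 * ℓ + 23 = (9 * ℓ + 22) + 1 by ring, pow_succ]
    omega
  · intro p c h
    have h3 := h.comap (X' := Fin N → Bool × Bool) (Y' := Fin N → Bool × Bool) unpairs unpairs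
    have h4 : (fun x y => lift2 f (unpairs x) (unpairs y)) = lift f := by
      funext x y
      simp only [lift2, pairs_unpairs]
    rw [h4] at h3
    rcases Nat.lt_or_ge (2 ^ ℓ) (p + 1) with h5 | h5
    · nlinarith
    · exact (hdual (p + 1) (2 ^ ℓ) (by omega) h5 le_rfl).macc h3

/-- Total two-party functions with Arthur-Merlin protocols and without cheap `SBP` protocols. -/
theorem total_amcc (ℓ : ℕ) : ∃ (N : ℕ) (F : (Fin N → Bool) → (Fin N → Bool) → Bool),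
    N ≤ 2 ^ (8 * ℓ + 32) ∧
    HasAMcc F (5 * ℓ + 23) (24 * ℓ + 145) ∧
    (∀ r s c, HasSBPcc F r s c → 2 ^ ℓ < 18 * (s + c + 3)) ∧
    (∀ k, SignRankLE F (2 ^ k) → 2 ^ ℓ ≤ 31 * (k + 4)) ∧
    (∀ c, HasUPPcc F c → 2 ^ ℓ ≤ 31 * (c + 5)) ∧
    (∀ p c, HasPPcc F p c → 2 ^ ℓ < 18 * (p + c + 2)) ∧
    ∀ p c, HasMAcc F p c → 2 ^ ℓ < 18 * (p + 2) * (c + 2) := by
  obtain ⟨N, F, h1, h2, h3, h4, h5, h6⟩ := U.total_uppcc ℓ
  refine ⟨N, F, h1, h2, fun r s c h => ?_, h3, h4, h5, h6⟩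
  have := h5 _ _ h.pp
  omega

end Pool.Agent.Lib.MP_ff3ed7_lc.B
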